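import Pool.Agent.Lib.MP_010b1d_an.Mass

/-! Degree theory for smooth maps: sums of signs of Jacobians, and a Brouwer type lemma. -/

set_option autoImplicit false

open MeasureTheory Set Filter Topology Function Metric
open scoped RealInnerProductSpace

namespace Pool.Agent.Lib.MP_997161_gt

open Pool.Agent.Lib.MP_010b1d_an

variable {n : ℕ}

lemma local_nbhd {F : E n → E n} (hF : ContDiff ℝ 1 F) {x : E n}
    (hx : jac (fderiv ℝ F x) ≠ 0) {O : Set (E n)} (hO : O ∈ 𝓝 x) :
    ∃ U, IsOpen U ∧ x ∈ U ∧ U ⊆ O ∧ InjOn F U ∧ F '' U ∈ 𝓝 (F x) ∧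
      ∀ y ∈ U, jac (fderiv ℝ F y) = SignType.sign (jac (fderiv ℝ F x)) * |jac (fderiv ℝ F y)| := by
  have hJ := continuous_jac_fderiv hF
  let L : E n ≃L[ℝ] E n := (fderiv ℝ F x).toContinuousLinearEquivOfDetNeZero hx
  have hs : HasStrictFDerivAt F (L : E n →L[ℝ] E n) x := by
    simpa [L] using hF.contDiffAt.hasStrictFDerivAt one_ne_zero
  have h1 : ∀ᶠ y in 𝓝 x,
      jac (fderiv ℝ F y) = SignType.sign (jac (fderiv ℝ F x)) * |jac (fderiv ℝ F y)| := by
    rcases lt_or_gt_of_ne hx with h | h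
    · filter_upwards [hJ.continuousAt.eventually_lt continuousAt_const h] with y hy
      simp [sign_neg h, abs_of_neg hy]
    · filter_upwards [continuousAt_const.eventually_lt hJ.continuousAt h] with y hy
      simp [sign_pos h, abs_of_pos hy]
  have h2 : (hs.toOpenPartialHomeomorph F).source ∈ 𝓝 x :=
    (hs.toOpenPartialHomeomorph F).open_source.mem_nhds hs.mem_toOpenPartialHomeomorph_source
  obtain ⟨U, hU, hUo, hxU⟩ := _root_.mem_nhds_iff.1 (inter_mem (inter_mem h1 h2) hO)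
  refine ⟨U, hUo, hxU, fun y hy => (hU hy).2, ?_, ?_, fun y hy => (hU hy).1.1⟩
  · exact (hs.toOpenPartialHomeomorph F).injOn.mono fun y hy => (hU hy).1.2
  · rw [← hs.map_nhds_eq_of_equiv]
    exact image_mem_map (hUo.mem_nhds hxU)

lemma T_regular {F : E n → E n} (hF : ContDiff ℝ 1 F) {K : Set (E n)} (hK : IsCompact K)
    {z : E n} (W : Finset (E n)) (hW : ∀ x, x ∈ W ↔ x ∈ K ∧ F x = z)
    (hint : ∀ x ∈ W, K ∈ 𝓝 x) (hreg : ∀ x ∈ W, jac (fderiv ℝ F x) ≠ 0) :
    ∃ δ > 0, ∀ ψ : E n → ℝ, Continuous ψ → (∀ y, δ ≤ ‖y‖ → ψ y = 0) →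
      ∫ x in K, jac (fderiv ℝ F x) * ψ (F x - z) =
        (∑ x ∈ W, (SignType.sign (jac (fderiv ℝ F x)) : ℝ)) * ∫ y, ψ y := by
  have hJ := continuous_jac_fderiv hF
  obtain ⟨O, hO, hOd⟩ := W.finite_toSet.t2_separation
  have h1 : ∀ x : W, ∃ U, IsOpen U ∧ x.1 ∈ U ∧ U ⊆ K ∩ O x ∧ InjOn F U ∧ F '' U ∈ 𝓝 (F x) ∧
      ∀ y ∈ U, jac (fderiv ℝ F y) =
        SignType.sign (jac (fderiv ℝ F x)) * |jac (fderiv ℝ F y)| := fun x =>
    local_nbhd hF (hreg x x.2) (inter_mem (hint x x.2) ((hO x).2.mem_nhds (hO x).1))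
  choose U hUo hxU hUK hUi hUn hUs using h1
  have hc : IsCompact (K \ ⋃ x, U x) := hK.diff (isOpen_iUnion hUo)
  have h2 : (F '' (K \ ⋃ x, U x))ᶜ ∈ 𝓝 z := by
    refine (hc.image hF.continuous).isClosed.isOpen_compl.mem_nhds ?_
    rintro ⟨y, hy, hyz⟩
    exact hy.2 (mem_iUnion.2 ⟨⟨y, (hW y).2 ⟨hy.1, hyz⟩⟩, hxU _⟩)
  have h3 : (⋂ x, F '' U x) ∈ 𝓝 z := by
    refine iInter_mem.2 fun x => ?_
    have := hUn x
    rwa [((hW x).1 x.2).2] at this
  obtain ⟨δ, hδ, hb⟩ := Metric.mem_nhds_iff.1 (inter_mem h2 h3)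
  refine ⟨δ, hδ, fun ψ hψ hψ0 => ?_⟩
  have hball : ∀ y, y ∉ ball z δ → ψ (y - z) = 0 := fun y hy =>
    hψ0 _ (by rwa [mem_ball, dist_eq_norm, not_lt] at hy)
  have hsub : (⋃ x, U x) ⊆ K := iUnion_subset fun x y hy => (hUK x hy).1
  have hcont : Continuous fun x => jac (fderiv ℝ F x) * ψ (F x - z) :=
    hJ.mul (hψ.comp (hF.continuous.sub continuous_const))
  have hI := hcont.continuousOn.integrableOn_compact (μ := volume) hK
  rw [setIntegral_eq_of_subset_of_forall_sdiff_eq_zero hK.measurableSet hsub, integral_iUnion_fintype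
    (fun x => (hUo x).measurableSet) _ fun x => hI.mono_set fun y hy => (hUK x hy).1]
  · rw [Finset.sum_mul, ← Finset.sum_coe_sort W]
    refine Finset.sum_congr rfl fun x _ => ?_
    have h4 := integral_image_eq_integral_abs_det_fderiv_smul (μ := volume)
      (hUo x).measurableSet
      (fun y _ => (hF.differentiable one_ne_zero y).hasFDerivAt.hasFDerivWithinAt) (hUi x)
      fun y => ψ (y - z)
    rw [setIntegral_eq_integral_of_forall_compl_eq_zero fun y hy => hball y fun hy' =>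
      hy (mem_iInter.1 (hb hy').2 x), integral_sub_right_eq_self] at h4
    rw [h4, ← integral_const_mul]
    refine setIntegral_congr_fun (hUo x).measurableSet fun y hy => ?_
    simp only [smul_eq_mul]
    rw [hUs x y hy, mul_assoc]
    rfl
  · intro x y hxy
    exact (hOd x.2 y.2 fun h => hxy (Subtype.ext h)).mono (fun w hw => (hUK x hw).2)
      fun w hw => (hUK y hw).2
  · intro y hy
    rw [hball _ fun h => (hb h).1 (mem_image_of_mem F hy), mul_zero]

theorem deg_eq {F : E n → E n} (hF : ContDiff ℝ 2 F) {V K A : Set (E n)} (hV : IsOpen V)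
    (hK : IsCompact K) (hKV : K ⊆ V) (hA : IsOpen A) (hAc : IsPreconnected A) {η : ℝ}
    (hη : 0 < η) (H : ∀ x ∈ V, x ∉ K → ∀ z ∈ A, η ≤ ‖F x - z‖) {z z' : E n} (hz : z ∈ A)
    (hz' : z' ∈ A) (W W' : Finset (E n)) (hW : ∀ x, x ∈ W ↔ x ∈ K ∧ F x = z)
    (hW' : ∀ x, x ∈ W' ↔ x ∈ K ∧ F x = z') (hreg : ∀ x ∈ W, jac (fderiv ℝ F x) ≠ 0)
    (hreg' : ∀ x ∈ W', jac (fderiv ℝ F x) ≠ 0) :
    ∑ x ∈ W, (SignType.sign (jac (fderiv ℝ F x)) : ℝ) =
      ∑ x ∈ W', (SignType.sign (jac (fderiv ℝ F x)) : ℝ) := by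
  have hF1 : ContDiff ℝ 1 F := hF.of_le one_le_two
  have hint : ∀ w ∈ A, ∀ x ∈ K, F x = w → K ∈ 𝓝 x := by
    intro w hw x hx hxw
    have h1 : ∀ᶠ y in 𝓝 x, ‖F y - w‖ < η :=
      (hF.continuous.sub continuous_const).norm.continuousAt.eventually_lt continuousAt_const
        (by simpa [hxw] using hη)
    filter_upwards [h1, hV.mem_nhds (hKV hx)] with y hy hyV
    by_contra hyK
    exact absurd (H y hyV hyK w hw) (not_le.2 hy)
  obtain ⟨δ, hδ, h⟩ := T_regular hF1 hK W hW
    (fun x hx => hint z hz x ((hW x).1 hx).1 ((hW x).1 hx).2) hreg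
  obtain ⟨δ', hδ', h'⟩ := T_regular hF1 hK W' hW'
    (fun x hx => hint z' hz' x ((hW' x).1 hx).1 ((hW' x).1 hx).2) hreg'
  set r := min η (min δ δ') / 2 with hr
  have hr0 : 0 < r := half_pos (lt_min hη (lt_min hδ hδ'))
  have hr1 : r < η := by linarith [min_le_left η (min δ δ')]
  have hr2 : r < δ := by linarith [min_le_right η (min δ δ'), min_le_left δ δ']
  have hr3 : r < δ' := by linarith [min_le_right η (min δ δ'), min_le_right δ δ']
  let φ : ContDiffBump (0 : E n) := ⟨r / 2, r, half_pos hr0, half_lt_self hr0⟩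
  have hts : ∀ y, r < ‖y‖ → y ∉ tsupport (φ.normed volume) := by
    intro y hy hm
    rw [φ.tsupport_normed_eq, mem_closedBall_zero_iff] at hm
    exact absurd hm (not_le.2 hy)
  have e1 := h _ (φ.continuous_normed (μ := volume)) fun y hy =>
    image_eq_zero_of_notMem_tsupport (hts y (hr2.trans_le hy))
  have e2 := h' _ (φ.continuous_normed (μ := volume)) fun y hy =>
    image_eq_zero_of_notMem_tsupport (hts y (hr3.trans_le hy))
  rw [φ.integral_normed, mul_one] at e1 e2
  rw [← e1, ← e2]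
  exact T_const hF hV hK hKV hA hAc φ.contDiff_normed φ.hasCompactSupport_normed
    (fun x hx hx' w hw => hts _ (hr1.trans_le (H x hx hx' w hw))) hz hz'

theorem exists_zero {F : E n → E n} (hF : Continuous F) {R : ℝ}
    (H : ∀ w, R ≤ ‖w‖ → 0 < ⟪F w, w⟫) : ∃ w, F w = 0 := by
  by_contra hne
  push Not at hne
  have hR : 0 < R := by
    by_contra h
    simpa using H 0 (by simpa using h)
  let χ : E n → ℝ := fun w => max 0 (min 1 (R + 1 - ‖w‖))
  have hχ : Continuous χ := by fun_prop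
  let G : E n → E n := fun w => χ w • (F w - w)
  have hG : Continuous G := by fun_prop
  have hG0 : ∀ w, G w + w ≠ 0 := by
    intro w hw
    by_cases h : R ≤ ‖w‖
    · have h1 : ⟪G w + w, w⟫ = χ w * ⟪F w, w⟫ + (1 - χ w) * ‖w‖ ^ 2 := by
        simp only [G, inner_add_left, inner_smul_left, inner_sub_left, real_inner_self_eq_norm_sq]
        simp only [conj_trivial]
        ring
      have h2 : 0 ≤ χ w := le_max_left _ _
      have h3 : χ w ≤ 1 := max_le zero_le_one (min_le_left _ _)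
      have h4 := H w h
      have h5 : 0 < ‖w‖ ^ 2 := pow_pos (hR.trans_le h) 2
      rw [hw, inner_zero_left] at h1
      rcases h2.eq_or_lt with h6 | h6
      · rw [← h6] at h1; linarith
      · nlinarith [mul_pos h6 h4, mul_nonneg (sub_nonneg.2 h3) h5.le]
    · have : χ w = 1 := by
        simp only [χ]
        rw [min_eq_left (by linarith [not_le.1 h]), max_eq_right zero_le_one]
      apply hne w
      simpa [G, this] using hw
  obtain ⟨g, hg, hgd, hgs⟩ := hG.exists_contDiff_approx 2 (ε := fun w => ‖G w + w‖)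
    (by fun_prop) fun w => norm_pos_iff.2 (hG0 w)
  have hg0 : ∀ w, R + 1 ≤ ‖w‖ → g w = 0 := by
    intro w hw
    by_contra h
    apply hgs h
    have : χ w = 0 := max_eq_left ((min_le_right _ _).trans (by linarith))
    simp [G, this]
  have hP : ContDiff ℝ 2 fun w => g w + w := hg.add contDiff_id
  obtain ⟨C, hC⟩ := (isCompact_closedBall (0 : E n) (R + 1)).exists_bound_of_continuousOn
    hP.continuous.continuousOn
  have hn : Nontrivial (E n) := ⟨F 0, 0, hne 0⟩
  obtain ⟨z, hz⟩ := exists_norm_eq (E n) (c := max C (R + 1) + 1)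
    (by linarith [le_max_right C (R + 1)])
  have hz1 : R + 1 < ‖z‖ := by linarith [le_max_right C (R + 1)]
  have hz2 : C < ‖z‖ := by linarith [le_max_left C (R + 1)]
  have hj : fderiv ℝ (fun w => g w + w) z = ContinuousLinearMap.id ℝ _ := by
    have : (fun w => g w + w) =ᶠ[𝓝 z] id := by
      filter_upwards [continuousAt_const.eventually_lt continuous_norm.continuousAt hz1] with y hy
      simp [hg0 y hy.le]
    rw [this.fderiv_eq, fderiv_id]
  have hj' : jac (fderiv ℝ (fun w => g w + w) z) = 1 := by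
    rw [hj, jac]; simp
  have := deg_eq hP isOpen_univ (isCompact_closedBall 0 (‖z‖ + 2)) (subset_univ _)
    (isOpen_ball (x := 0) (ε := ‖z‖ + 1)) (convex_ball _ _).isPreconnected one_pos
    (z := 0) (z' := z) (fun x _ hx w hw => ?_) (mem_ball_self (by positivity)) (by simp) ∅ {z}
    (fun x => ?_) (fun x => ?_) (by simp) (by simp [hj'])
  · simp [hj'] at this
  · rw [mem_closedBall_zero_iff, not_le] at hx
    rw [mem_ball_zero_iff] at hw
    rw [hg0 x (by linarith), zero_add]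
    linarith [norm_sub_norm_le x w]
  · simp only [Finset.notMem_empty, false_iff, not_and]
    intro _ h
    have h1 := hgd x
    rw [dist_eq_norm, eq_neg_of_add_eq_zero_left h, ← norm_neg] at h1
    simp [add_comm] at h1
  · simp only [Finset.mem_singleton, mem_closedBall_zero_iff]
    constructor
    · rintro rfl
      exact ⟨by linarith, by rw [hg0 _ hz1.le, zero_add]⟩
    · rintro ⟨-, h⟩
      by_cases h1 : ‖x‖ ≤ R + 1
      · have := hC x (mem_closedBall_zero_iff.2 h1)
        rw [h] at this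
        linarith
      · rwa [hg0 x (not_le.1 h1).le, zero_add] at h

lemma exists_regular {F : E n → E n} (hF : ContDiff ℝ 1 F) {U : Set (E n)} {p : E n}
    (hU : U ∈ 𝓝 p) (N : Set (E n)) (hN : volume N = 0) :
    ∃ z ∈ U, z ∉ N ∧ ∀ x, F x = z → jac (fderiv ℝ F x) ≠ 0 := by
  have h := addHaar_image_eq_zero_of_det_fderivWithin_eq_zero (μ := volume)
    (s := {x | jac (fderiv ℝ F x) = 0}) (f := F) (f' := fun x => fderiv ℝ F x)
    (fun y _ => (hF.differentiable one_ne_zero y).hasFDerivAt.hasFDerivWithinAt) fun x hx => hx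
  by_contra hcon
  push Not at hcon
  have h1 : U ⊆ N ∪ F '' {x | jac (fderiv ℝ F x) = 0} := by
    intro z hz
    by_cases hzN : z ∈ N
    · exact Or.inl hzN
    · obtain ⟨x, hx, hx'⟩ := hcon z hz hzN
      exact Or.inr ⟨x, hx', hx⟩
  exact (Measure.measure_pos_of_mem_nhds volume hU).ne'
    (measure_mono_null h1 (measure_union_null hN h))

end Pool.Agent.Lib.MP_997161_gt
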