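import Pool.Agent.Lib.MP_997161_gt.Local

/-! Hadamard's theorem, smoothness of the inverse Gauss map, and the main theorem. -/

set_option autoImplicit false

open Set Filter Topology Function Metric
open scoped RealInnerProductSpace

namespace Pool.Agent.Lib.MP_997161_gt

open Pool.Agent.Lib.MP_010b1d_an

variable {S : Set (E 3)}

theorem hadamard (hS : IsCompact S) (hc : IsConnected S) (hd : ∀ q ∈ S, ∃ g, Def S q g) :
    ∃ X : E 3 → E 3, ∀ w ≠ 0, (X w ∈ S ∧ IsMaxOn (fun x => ⟪w, x⟫) S (X w)) ∧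
      ∀ y ∈ S, IsLocalMaxOn (fun x => ⟪w, x⟫) S y → y = X w := by
  have h1 : ∀ w : E 3, ∃ y ∈ S, IsMaxOn (fun x => ⟪w, x⟫) S y := fun w =>
    hS.exists_isMaxOn hc.nonempty (by fun_prop)
  choose X hX hX' using h1
  refine ⟨X, fun w hw => ⟨⟨hX w, hX' w⟩, fun y hy hm => ?_⟩⟩
  have ty : ∀ y ∈ S, SM S (fun x => ⟪w, x⟫) y ∨ Up S (fun x => ⟪w, x⟫) y := fun y hy => by
    obtain ⟨g, hg⟩ := hd y hy
    refine (hg.tri hy hw).imp_left ?_
    rintro ⟨t, ht, rfl⟩
    exact hg.sm_pos hy ht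
  exact pass hS hc.isPreconnected (by fun_prop)
    (fun x hx O hO => (hd x hx).elim fun g hg => hg.lc hx hO) ty hy (hX w)
    ((ty y hy).resolve_right fun k => k.not_max hy hm)
    ((ty _ (hX w)).resolve_right fun k => k.not_max (hX w) (hX' w).localize)

lemma SM.isLocalMaxOn {φ : E 3 → ℝ} {y : E 3} (h : SM S φ y) : IsLocalMaxOn φ S y := by
  filter_upwards [h] with x hx
  by_cases k : x = y
  · rw [k]
  · exact (hx k).le

section
variable {X : E 3 → E 3} (hS : IsCompact S)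
  (hX : ∀ w ≠ 0, (X w ∈ S ∧ IsMaxOn (fun x => ⟪w, x⟫) S (X w)) ∧
    ∀ y ∈ S, IsLocalMaxOn (fun x => ⟪w, x⟫) S y → y = X w)
include hX

lemma normal_dir {w : E 3} (hw : w ≠ 0) {g : E 3 → ℝ} (hg : Def S (X w) g) :
    ∃ t : ℝ, 0 < t ∧ w = t • vec (fderiv ℝ g (X w)) :=
  (hg.tri (hX w hw).1.1 hw).resolve_right fun k => k.not_max (hX w hw).1.1 (hX w hw).1.2.localize

include hS

lemma contX {w : E 3} (hw : w ≠ 0) : ContinuousAt X w := by
  intro O hO
  obtain ⟨U, hUO, hU, hxU⟩ := _root_.mem_nhds_iff.1 hO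
  have := (hS.diff hU).eventually_forall_of_forall_eventually (x₀ := w)
    (P := fun v y => ⟪v, y⟫ < ⟪v, X w⟫) fun y hy => by
      refine ContinuousAt.eventually_lt (by fun_prop) (by fun_prop) (lt_of_not_ge fun k => hy.2 ?_)
      rwa [(hX w hw).2 y hy.1 (IsMaxOn.localize fun z hz => le_trans ((hX w hw).1.2 hz) k)]
  refine mem_map.2 ?_
  filter_upwards [this, isOpen_ne.mem_nhds hw] with v hv hv0
  by_contra k
  exact absurd (hv _ ⟨(hX v hv0).1.1, fun k' => k (hUO k')⟩)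
    (not_lt.2 ((hX v hv0).1.2 (hX w hw).1.1))

lemma smoothX {w : E 3} (hw : w ≠ 0) {g : E 3 → ℝ} (hg : Def S (X w) g) : ContDiffAt ℝ 2 X w := by
  obtain ⟨t, ht, e⟩ := normal_dir hX hw hg
  set q := X w with hq
  let n : E 3 → E 3 := fun y => vec (fderiv ℝ g y)
  have hn : ContDiffAt ℝ 2 n q := vec.contDiff.contDiffAt.comp q hg.sm2
  have hn' : HasFDerivAt n (vec.comp (fderiv ℝ (fderiv ℝ g) q)) q :=
    vec.hasFDerivAt.comp q (hg.sm2.differentiableAt two_ne_zero).hasFDerivAt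
  have n0 : n q ≠ 0 := vec_ne hg.ne
  let Φ : E 3 × ℝ → E 3 × ℝ := fun p => (p.2 • n p.1, g p.1)
  have hΦ : ContDiffAt ℝ 2 Φ (q, t) :=
    (contDiffAt_snd.smul (hn.comp (q, t) contDiffAt_fst)).prodMk
      ((hg.sm.of_le (by norm_num)).comp (q, t) contDiffAt_fst)
  have d := (hasFDerivAt_snd.smul (HasFDerivAt.comp (f := Prod.fst) (q, t) hn' hasFDerivAt_fst)
    ).prodMk (HasFDerivAt.comp (f := Prod.fst) (q, t) hg.strict.hasFDerivAt hasFDerivAt_fst)
  have d' : HasFDerivAt Φ _ (q, t) := d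
  have inj : Injective (fderiv ℝ Φ (q, t)).toLinearMap := by
    refine (injective_iff_map_eq_zero _).2 fun ⟨v, μ⟩ hv => ?_
    rw [d'.fderiv] at hv
    have k : t • vec (fderiv ℝ (fderiv ℝ g) q v) + μ • n q = 0 ∧ fderiv ℝ g q v = 0 := by
      simpa using hv
    have k1 := congrArg (⟪·, v⟫) k.1
    simp only [inner_add_left, inner_smul_left, n, inner_vec, k.2, conj_trivial, mul_zero,
      add_zero, inner_zero_left, mul_eq_zero, ht.ne', false_or] at k1
    have k2 : v = 0 := by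
      by_contra k2
      exact (hg.pos v k2 k.2).ne' k1
    have k3 := k.1
    simp only [k2, map_zero, smul_zero, zero_add, smul_eq_zero, n0, or_false] at k3
    simp [k2, k3]
  let A : (E 3 × ℝ) ≃L[ℝ] (E 3 × ℝ) :=
    (LinearMap.linearEquivOfInjective _ inj rfl).toContinuousLinearEquiv
  have dA : HasFDerivAt Φ (A : (E 3 × ℝ) →L[ℝ] (E 3 × ℝ)) (q, t) :=
    (hΦ.differentiableAt two_ne_zero).hasFDerivAt
  have g0 : g q = 0 := hg.ev.self_of_nhds.1 (hX w hw).1.1
  have e0 : Φ (q, t) = (w, 0) := Prod.ext e.symm g0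
  have h1 := hΦ.to_localInverse dA two_ne_zero
  rw [e0] at h1
  have h2 : ContDiffAt ℝ 2 (fun v => (hΦ.localInverse dA two_ne_zero (v, 0)).1) w :=
    contDiffAt_fst.comp w (h1.comp w (contDiffAt_id.prodMk contDiffAt_const))
  refine h2.congr_of_eventuallyEq ?_
  have cX := contX hS hX hw
  have cn : ContinuousAt (fun v => n (X v)) w := hn.continuousAt.comp_of_eq cX rfl
  have c2 : Tendsto (fun v => (X v, ⟪v, n (X v)⟫ / ‖n (X v)‖ ^ 2)) (𝓝 w) (𝓝 (q, t)) := by
    have : ContinuousAt (fun v => ⟪v, n (X v)⟫ / ‖n (X v)‖ ^ 2) w :=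
      (continuousAt_id.inner cn).div (cn.norm.pow 2) (pow_ne_zero 2 (norm_ne_zero_iff.2 n0))
    refine cX.tendsto.prodMk_nhds (this.tendsto.trans (le_of_eq ?_))
    congr 1
    rw [← hq]
    conv_lhs => enter [1, 2]; rw [e]
    rw [inner_smul_left, real_inner_self_eq_norm_sq, conj_trivial,
      mul_div_cancel_right₀ _ (pow_ne_zero 2 (norm_ne_zero_iff.2 n0))]
  filter_upwards [c2.eventually ((hΦ.toOpenPartialHomeomorph Φ dA two_ne_zero).open_source.mem_nhds
    (hΦ.mem_toOpenPartialHomeomorph_source dA two_ne_zero)), isOpen_ne.mem_nhds hw,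
    cX.eventually hg.ev.eventually_nhds, cX.eventually (hg.sm.eventually (by simp)),
    cn.eventually_ne n0] with v k1 k2 k3 k4 k5
  have gv : g (X v) = 0 := k3.self_of_nhds.1 (hX v k2).1.1
  have ex : IsLocalExtrOn (innerSL ℝ v) {x | g x = g (X v)} (X v) := by
    refine Or.inr ?_
    filter_upwards [self_mem_nhdsWithin, mem_nhdsWithin_of_mem_nhds k3] with x x1 x2
    exact (hX v k2).1.2 (x2.2 (x1.trans gv))
  obtain ⟨a, b, hab, k6⟩ := ex.exists_multipliers_of_hasStrictFDerivAt_1d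
    (k4.hasStrictFDerivAt three_ne_zero) (innerSL ℝ v).hasStrictFDerivAt
  have k7 : a • n (X v) + b • v = 0 := ext_inner_right ℝ fun x => by
    simpa [n, inner_add_left, inner_smul_left, inner_vec] using
      congrArg (fun L : E 3 →L[ℝ] ℝ => L x) k6
  have hb : b ≠ 0 := by
    rintro rfl
    simp only [zero_smul, add_zero, smul_eq_zero, k5, or_false] at k7
    exact hab (by rw [k7]; rfl)
  have k8 : v = (-a / b) • n (X v) := by
    refine smul_right_injective _ hb ?_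
    simp only [smul_smul, mul_div_cancel₀ _ hb]
    linear_combination (norm := module) k7
  have k9 : Φ (X v, ⟪v, n (X v)⟫ / ‖n (X v)‖ ^ 2) = (v, 0) := by
    refine Prod.ext ?_ gv
    simp only [Φ]
    conv_lhs => enter [1, 1, 2]; rw [k8]
    rw [inner_smul_left, real_inner_self_eq_norm_sq, conj_trivial,
      mul_div_cancel_right₀ _ (pow_ne_zero 2 (norm_ne_zero_iff.2 k5)), ← k8]
  have := (hΦ.toOpenPartialHomeomorph Φ dA two_ne_zero).left_inv k1
  rw [ContDiffAt.toOpenPartialHomeomorph_coe, k9] at this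
  exact (congrArg Prod.fst this).symm

end

theorem main (hS : IsCompact S) (hc : IsConnected S) (hd : ∀ q ∈ S, ∃ g, Def S q g)
    (hs : {p : E 3 | 6 ≤ {q ∈ S | ∀ v ∈ tangentConeAt ℝ S q, ⟪p - q, v⟫ = 0}.encard}.Subsingleton) :
    ∃ (c : E 3) (r : ℝ), 0 < r ∧ S = sphere c r := by
  obtain ⟨X, hX⟩ := hadamard hS hc hd
  have ne : ∀ u : E 3, ‖u‖ = 1 → u ≠ 0 := fun u hu => norm_ne_zero_iff.1 (by simp [hu])
  have homog : ∀ w ≠ 0, ∀ t : ℝ, 0 < t → X (t • w) = X w := fun w hw t ht =>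
    ((hX _ (smul_ne_zero ht.ne' hw)).2 _ (hX w hw).1.1 (IsMaxOn.localize fun y hy => by
      have : ⟪w, y⟫ ≤ ⟪w, X w⟫ := (hX w hw).1.2 hy
      simpa [inner_smul_left, ht] using this)).symm
  have h : Sup X := by
    refine ⟨fun w hw => ?_, fun w hw v hv => ?_, fun w t ht => ?_⟩
    · obtain ⟨g, hg⟩ := hd _ (hX w hw).1.1
      exact smoothX hS hX hw hg
    · have : ⟪w, X v⟫ ≤ ⟪w, X w⟫ := (hX w hw).1.2 (hX v hv).1.1
      simpa only [real_inner_comm] using this
    · by_cases hw : w = 0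
      · rw [hw, smul_zero]
      · exact homog w hw t ht
  have inj : ∀ u v, ‖u‖ = 1 → ‖v‖ = 1 → X u = X v → u = v := by
    intro u v hu hv e
    obtain ⟨g, hg⟩ := hd _ (hX u (ne u hu)).1.1
    obtain ⟨s, hs, e1⟩ := normal_dir hX (ne u hu) hg
    obtain ⟨t, ht, e2⟩ := normal_dir hX (ne v hv) (e ▸ hg)
    rw [← e] at e2
    have k1 := congrArg norm e1
    have k2 := congrArg norm e2
    rw [norm_smul, Real.norm_of_nonneg hs.le, hu] at k1
    rw [norm_smul, Real.norm_of_nonneg ht.le, hv] at k2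
    rw [e2, mul_right_cancel₀ (norm_ne_zero_iff.2 (vec_ne hg.ne)) (k2.symm.trans k1), ← e1]
  have ft : ∀ p, MapsTo X (crit X p) {q ∈ S | ∀ v ∈ tangentConeAt ℝ S q, ⟪p - q, v⟫ = 0} :=
    fun p u hu => ⟨(hX u (ne u hu.1)).1.1, fun v hv => by
      obtain ⟨g, hg⟩ := hd _ (hX u (ne u hu.1)).1.1
      obtain ⟨s, -, e1⟩ := normal_dir hX (ne u hu.1) hg
      obtain ⟨t, e2⟩ := hu.2
      have k1 : HasFDerivWithinAt g (0 : E 3 →L[ℝ] ℝ) S (X u) :=
        (hasFDerivWithinAt_const (0 : ℝ) _ _).congr_of_eventuallyEq (by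
          filter_upwards [self_mem_nhdsWithin, mem_nhdsWithin_of_mem_nhds hg.ev] with x x1 x2
            using x2.1 x1) (hg.ev.self_of_nhds.1 (hX u (ne u hu.1)).1.1)
      have k2 : fderiv ℝ g (X u) v = 0 :=
        hg.strict.hasFDerivAt.hasFDerivWithinAt.unique_on k1 hv
      have k3 : ⟪u, v⟫ = 0 := by rw [e1, inner_smul_left, inner_vec, k2, mul_zero]
      rw [← neg_sub, e2, inner_neg_left, inner_smul_left, k3, mul_zero, neg_zero]⟩
  obtain ⟨c, r, hr⟩ := h.round (hs.anti fun p hp => le_trans hp (encard_le_encard_of_injOn (ft p)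
    fun u hu v hv => inj u v hu.1 hv.1))
  obtain ⟨u, hu⟩ := exists_norm_eq (E 3) zero_le_one
  have hu' : ‖-u‖ = 1 := by rwa [norm_neg]
  have r0 : 0 < r := by
    have k := h.mx u (ne u hu) (-u) (ne _ hu')
    rw [hr u hu, hr _ hu'] at k
    simp only [inner_add_left, inner_smul_left, inner_neg_left, real_inner_self_eq_norm_sq, hu,
      conj_trivial] at k
    refine lt_of_le_of_ne (by linarith) ?_
    rintro rfl
    have := inj u (-u) hu hu' (by rw [hr u hu, hr _ hu']; simp)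
    exact ne u hu (by linear_combination (norm := module) (1 / 2 : ℝ) • this)
  refine ⟨c, r, r0, Subset.antisymm (fun y hy => ?_) fun y hy => ?_⟩
  · obtain ⟨g, hg⟩ := hd y hy
    have k := polar (vec_ne hg.ne)
    rw [(hX _ (ne _ k.1)).2 y hy (hg.sm_pos hy
      (inv_pos.2 (norm_pos_iff.2 (vec_ne hg.ne)))).isLocalMaxOn, hr _ k.1, mem_sphere_iff_norm,
      add_sub_cancel_left, norm_smul, k.1, mul_one, Real.norm_of_nonneg r0.le]
  · rw [mem_sphere_iff_norm] at hy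
    have k : ‖r⁻¹ • (y - c)‖ = 1 := by
      rw [norm_smul, hy, norm_inv, Real.norm_of_nonneg r0.le, inv_mul_cancel₀ r0.ne']
    have := (hX _ (ne _ k)).1.1
    rwa [hr _ k, smul_smul, mul_inv_cancel₀ r0.ne', one_smul, add_sub_cancel] at this

end Pool.Agent.Lib.MP_997161_gt
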