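import Pool.Agent.Lib.MP_997161_gt.Join

/-! The abstract degree argument for two set-valued maps. -/

set_option autoImplicit false

open Set Filter Topology Function Metric
open scoped RealInnerProductSpace

namespace Pool.Agent.Lib.MP_997161_gt

open Pool.Agent.Lib.MP_010b1d_an

/-- A nonempty-valued map into the unit sphere with closed graph. -/
structure Usc (m : E 3 → Set (E 3)) : Prop where
  ne : ∀ w, (m w).Nonempty
  sph : ∀ w, ∀ a ∈ m w, ‖a‖ = 1
  cl : IsClosed {p : E 3 × E 3 | p.2 ∈ m p.1}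

/-- Two disjoint such maps with opposite behaviour at infinity. -/
structure Data (m M : E 3 → Set (E 3)) : Prop where
  u1 : Usc m
  u2 : Usc M
  disj : ∀ w, ∀ a ∈ m w, a ∉ M w
  far : ∃ R, ∀ w, R ≤ ‖w‖ → (∀ a ∈ m w, ‖w‖ / 2 ≤ ⟪a, w⟫) ∧ ∀ b ∈ M w, ⟪b, w⟫ ≤ -(‖w‖ / 2)

variable {m M : E 3 → Set (E 3)}

lemma Usc.ev (h : Usc m) (w0 : E 3) {O : Set (E 3)} (hO : IsOpen O) (hw : m w0 ⊆ O) :
    ∀ᶠ w in 𝓝 w0, m w ⊆ O := by
  have := (isCompact_sphere (0 : E 3) 1).eventually_forall_of_forall_eventually (x₀ := w0)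
    (P := fun w a => a ∈ m w → a ∈ O) fun a _ => by
      by_cases ha : a ∈ O
      · filter_upwards [continuousAt_snd.eventually (hO.mem_nhds ha)] with z hz _ using hz
      · filter_upwards [h.cl.isOpen_compl.mem_nhds (x := (w0, a)) fun h' => ha (hw h')]
          with z hz hz' using absurd hz' hz
  filter_upwards [this] with w hw a ha using hw a (by simpa using h.sph w a ha) ha

lemma Usc.compact (h : Usc m) (w : E 3) : IsCompact (m w) :=
  (isCompact_sphere (0 : E 3) 1).of_isClosed_subset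
    (h.cl.preimage (f := fun a => (w, a)) (by fun_prop)) fun a ha => by simpa using h.sph w a ha

lemma Usc.sel1 {η : ℝ} {C : Set (E 3)} (hC : IsClosed C)
    (hCO : ∀ y ∈ C, ∃ c, ∀ᶠ w in 𝓝 y, m w ⊆ closedBall c η) :
    ∃ a : E 3 → E 3, Continuous a ∧ ∀ y ∈ C, ∀ a' ∈ m y, ‖a y - a'‖ ≤ η := by
  obtain ⟨g, hg⟩ := exists_continuous_forall_mem_convex_of_local_const
    (t := fun y : E 3 => {c : E 3 | y ∈ C → ∀ a' ∈ m y, c ∈ closedBall a' η})
    (fun y => by
      intro c hc d hd s t hs ht hst hy a' ha'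
      exact convex_closedBall a' η (hc hy a' ha') (hd hy a' ha') hs ht hst)
    fun y => by
      by_cases hy : y ∈ C
      · obtain ⟨c, hc⟩ := hCO y hy
        exact ⟨c, hc.mono fun w hw _ a' ha' => mem_closedBall_comm.1 (hw ha')⟩
      · exact ⟨0, (hC.isOpen_compl.eventually_mem hy).mono fun w hw h => absurd h hw⟩
  exact ⟨g, g.continuous, fun y hy a' ha' => mem_closedBall_iff_norm.1 (hg y hy a' ha')⟩

lemma Usc.loc (h : Usc m) {η : ℝ} (hη : 0 < η) {y : E 3} (hy : (m y).Subsingleton) :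
    ∃ c, ∀ᶠ w in 𝓝 y, m w ⊆ closedBall c η := by
  obtain ⟨c, hc⟩ := h.ne y
  refine ⟨c, (h.ev y isOpen_ball (O := ball c η) fun a ha => ?_).mono fun w hw =>
    hw.trans ball_subset_closedBall⟩
  rw [hy ha hc]
  exact mem_ball_self hη

lemma Data.sel (D : Data m M) {Q : Set (E 3)} (hQ : IsClosed Q)
    (hs : ∀ w ∈ Q, (m w).Subsingleton ∨ (M w).Subsingleton) {η : ℝ} (hη : 0 < η) :
    ∃ (a b : E 3 → E 3) (φ : E 3 → ℝ), Continuous a ∧ Continuous b ∧ Continuous φ ∧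
      ∀ w ∈ Q, Near (m w) (M w) η (a w) (b w) (φ w) := by
  let O : (E 3 → Set (E 3)) → Set (E 3) := fun k => {y | ∃ c, ∀ᶠ w in 𝓝 y, k w ⊆ closedBall c η}
  have hO : ∀ k, IsOpen (O k) := fun k => isOpen_iff_mem_nhds.2 fun y ⟨c, hc⟩ =>
    hc.eventually_nhds.mono fun w hw => ⟨c, hw⟩
  obtain ⟨f, hf0, hf1, -⟩ := exists_continuous_zero_one_of_isClosed
    (hQ.sdiff (hO m)) (hQ.sdiff (hO M)) (disjoint_left.2 fun y h1 h2 =>
      (hs y h1.1).elim (fun h => h1.2 (D.u1.loc hη h)) fun h => h2.2 (D.u2.loc hη h))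
  obtain ⟨a, ha, ha'⟩ := Usc.sel1 (m := m) (η := η)
    (hQ.inter (isClosed_le (continuous_const (y := (1 / 3 : ℝ))) f.continuous)) fun y hy => by
      by_contra h
      have h1 : f y = 0 := hf0 ⟨hy.1, h⟩
      have h2 : 1 / 3 ≤ f y := hy.2
      linarith
  obtain ⟨b, hb, hb'⟩ := Usc.sel1 (m := M) (η := η)
    (hQ.inter (isClosed_le f.continuous (continuous_const (y := (2 / 3 : ℝ))))) fun y hy => by
      by_contra h
      have h1 : f y = 1 := hf1 ⟨hy.1, h⟩
      have h2 : f y ≤ 2 / 3 := hy.2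
      linarith
  refine ⟨a, b, fun w => max 0 (min 1 (3 * f w - 1)), ha, hb, by fun_prop, fun w hw =>
    ⟨⟨le_max_left _ _, max_le zero_le_one (min_le_left _ _)⟩, fun h => ?_, fun h => ?_⟩⟩
  · refine ⟨_, (D.u1.ne w).some_mem, ha' w ⟨hw, ?_⟩ _ (D.u1.ne w).some_mem⟩
    by_contra h1
    have h2 : f w < 1 / 3 := not_le.1 h1
    exact h (max_eq_left ((min_le_right _ _).trans (by linarith)))
  · refine ⟨_, (D.u2.ne w).some_mem, hb' w ⟨hw, ?_⟩ _ (D.u2.ne w).some_mem⟩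
    by_contra h1
    have h2 : 2 / 3 < f w := not_le.1 h1
    exact h (by simp only; rw [min_eq_left (by linarith), max_eq_right zero_le_one])

lemma Near.mono {A B : Set (E 3)} {η η' : ℝ} {a b : E 3} {φ : ℝ} (h : Near A B η a b φ)
    (hη : η ≤ η') : Near A B η' a b φ :=
  ⟨h.1, fun k => (h.2.1 k).imp fun _ l => ⟨l.1, l.2.trans hη⟩,
    fun k => (h.2.2 k).imp fun _ l => ⟨l.1, l.2.trans hη⟩⟩

lemma Data.outer (D : Data m M) : ∃ η > 0, ∃ R, ∀ w a b φ, Near (m w) (M w) η a b φ →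
    φ • a - (1 - φ) • b ≠ 0 ∧ (R ≤ ‖w‖ → 0 < ⟪φ • a - (1 - φ) • b, w⟫) := by
  obtain ⟨R, hR⟩ := D.far
  have hc : IsCompact {p : E 3 × E 3 × E 3 | ‖p.1‖ ≤ max R 1 ∧ p.2.1 ∈ m p.1 ∧ p.2.2 ∈ M p.1} := by
    refine ((isCompact_closedBall (0 : E 3) (max R 1)).prod ((isCompact_sphere (0 : E 3) 1).prod
      (isCompact_sphere (0 : E 3) 1))).of_isClosed_subset ?_ fun p hp => ?_
    · refine IsClosed.and (isClosed_le (by fun_prop) continuous_const) (IsClosed.and ?_ ?_)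
      · exact D.u1.cl.preimage (f := fun p : E 3 × E 3 × E 3 => (p.1, p.2.1)) (by fun_prop)
      · exact D.u2.cl.preimage (f := fun p : E 3 × E 3 × E 3 => (p.1, p.2.2)) (by fun_prop)
    · exact ⟨by simpa using hp.1, by simpa using D.u1.sph _ _ hp.2.1,
        by simpa using D.u2.sph _ _ hp.2.2⟩
  obtain ⟨μ, hμ, hμ'⟩ := hc.exists_forall_le' (a := 0)
    (f := fun p => min (1 - ⟪p.2.1, p.2.2⟫) 1) (by fun_prop) fun p hp =>
      lt_min (sub_pos.2 ((inner_lt_one_iff_real_of_norm_eq_one (D.u1.sph _ _ hp.2.1)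
        (D.u2.sph _ _ hp.2.2)).2 fun h => D.disj _ _ hp.2.1 (h ▸ hp.2.2))) one_pos
  refine ⟨min (μ / 4) (1 / 4), by positivity, max R 1, fun w a b φ hN => ?_⟩
  obtain ⟨a', ha', b', hb', h⟩ := hN.approx (D.u1.ne w) (D.u2.ne w)
  have k : max R 1 ≤ ‖w‖ → 0 < ⟪φ • a - (1 - φ) • b, w⟫ := by
    intro hw
    obtain ⟨k1, k2⟩ := hR w ((le_max_left _ _).trans hw)
    have k3 := abs_real_inner_le_norm ((φ • a - (1 - φ) • b) - (φ • a' - (1 - φ) • b')) w
    have k4 : 0 < ‖w‖ := one_pos.trans_le ((le_max_right _ _).trans hw)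
    have k5 := mul_le_mul_of_nonneg_right (h.trans (min_le_right _ _)) k4.le
    rw [inner_sub_left, inner_sub_left (φ • a'), inner_smul_left, inner_smul_left, abs_le] at k3
    simp only [conj_trivial] at k3
    nlinarith [mul_le_mul_of_nonneg_left (k1 a' ha') hN.1.1,
      mul_le_mul_of_nonneg_left (k2 b' hb') (sub_nonneg.2 hN.1.2), k3.1]
  refine ⟨fun h0 => ?_, k⟩
  by_cases hw : max R 1 ≤ ‖w‖
  · simpa [h0] using k hw
  · have k1 := hμ' (w, a', b') ⟨(not_le.1 hw).le, ha', hb'⟩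
    simp only [le_min_iff] at k1
    have := lowJ (u := 0) (D.u1.sph _ _ ha') (D.u2.sph _ _ hb') hμ.le (by linarith [k1.1])
      (by simpa using k1.2) (by simpa using k1.2) hN.1
    rw [h0, zero_sub, norm_neg] at h
    rw [smul_zero, sub_zero] at this
    linarith [min_le_left (μ / 4) (1 / 4)]

theorem Data.h0 (D : Data m M) (hs : ∀ w, (m w).Subsingleton ∨ (M w).Subsingleton) : False := by
  obtain ⟨η, hη, R, h⟩ := D.outer
  obtain ⟨a, b, φ, ha, hb, hφ, hN⟩ := D.sel isClosed_univ (fun w _ => hs w) hη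
  obtain ⟨w, hw⟩ := exists_zero (F := fun w => φ w • a w - (1 - φ w) • b w) (by fun_prop)
    fun w hw => (h w _ _ _ (hN w (mem_univ _))).2 hw
  exact (h w _ _ _ (hN w (mem_univ _))).1 hw

theorem Data.h1 (D : Data m M) (p : E 3)
    (hs : ∀ w ≠ p, (m w).Subsingleton ∨ (M w).Subsingleton) (c1 : IsPreconnected (m p))
    (c2 : IsPreconnected (M p)) : False := by
  obtain ⟨η, hη, R, h⟩ := D.outer
  obtain ⟨η', hη', G, hG, G0, G2, G1⟩ := join_null (D.u1.compact p) (D.u2.compact p) c1 c2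
    (D.u1.ne p) (D.u2.ne p) (D.u1.sph p) (D.u2.sph p) (D.disj p)
  obtain ⟨ε, hε, hb⟩ := Metric.eventually_nhds_iff.1
    ((D.u1.ev p isOpen_thickening (self_subset_thickening (half_pos hη') _)).and
      (D.u2.ev p isOpen_thickening (self_subset_thickening (half_pos hη') _)))
  obtain ⟨a, b, φ, ha, hb', hφ, hN⟩ := D.sel (Q := {w | ε / 2 ≤ dist w p})
    (isClosed_le continuous_const (by fun_prop)) (fun w hw => hs w (by
      rintro rfl
      simp only [mem_ofPred_eq, dist_self] at hw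
      linarith)) (lt_min hη (half_pos hη'))
  let τ : E 3 → ℝ := fun w => max 0 (min 2 (4 - 4 * dist w p / ε))
  have τ0 : ∀ w, ε ≤ dist w p → τ w = 0 := fun w hw =>
    max_eq_left ((min_le_right _ _).trans (by
      rw [sub_nonpos, le_div_iff₀ hε]; linarith))
  have τ2 : ∀ w, dist w p ≤ ε / 2 → τ w = 2 := fun w hw => by
    simp only [τ]
    rw [min_eq_left, max_eq_right zero_le_two]
    have : 4 * dist w p / ε ≤ 2 := by rw [div_le_iff₀ hε]; linarith
    linarith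
  obtain ⟨w, hw⟩ := exists_zero (F := fun w => G (τ w, a w, b w, φ w)) (by fun_prop)
    (R := max R (‖p‖ + ε)) fun w hw => by
      have : ε ≤ dist w p := by
        rw [dist_eq_norm]
        linarith [norm_sub_norm_le w p, le_max_right R (‖p‖ + ε)]
      rw [τ0 w this, G0]
      exact (h w _ _ _ ((hN w (by simp only [mem_ofPred_eq]; linarith)).mono
        (min_le_left _ _))).2 ((le_max_left _ _).trans hw)
  rcases le_total (dist w p) (ε / 2) with h1 | h1
  · rw [τ2 w h1] at hw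
    exact G2 _ _ _ hw
  rcases le_or_gt ε (dist w p) with h2 | h2
  · rw [τ0 w h2, G0] at hw
    exact (h w _ _ _ ((hN w h1).mono (min_le_left _ _))).1 hw
  refine G1 _ ⟨le_max_left _ _, max_le zero_le_two (min_le_left _ _)⟩ _ _ _
    ⟨(hN w h1).1, fun k => ?_, fun k => ?_⟩ hw
  · obtain ⟨a', k1, k2⟩ := (hN w h1).2.1 k
    obtain ⟨a'', k3, k4⟩ := mem_thickening_iff.1 ((hb h2).1 k1)
    refine ⟨a'', k3, ?_⟩
    rw [← dist_eq_norm] at k2 ⊢
    linarith [dist_triangle (a w) a' a'', min_le_right η (η' / 2)]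
  · obtain ⟨a', k1, k2⟩ := (hN w h1).2.2 k
    obtain ⟨a'', k3, k4⟩ := mem_thickening_iff.1 ((hb h2).2 k1)
    refine ⟨a'', k3, ?_⟩
    rw [← dist_eq_norm] at k2 ⊢
    linarith [dist_triangle (b w) a' a'', min_le_right η (η' / 2)]

theorem Data.h2 (D : Data m M) (p : E 3)
    (hs : ∀ w ≠ p, (m w).Subsingleton ∨ (M w).Subsingleton)
    (h : ∀ᶠ w in 𝓝 p, w ≠ p → (m w).Subsingleton) : False := by
  obtain ⟨q, hq⟩ := D.u2.ne p
  obtain ⟨ε, hε, hb⟩ := Metric.nhds_basis_closedBall.eventually_iff.1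
    (h.and (D.u1.ev p (isOpen_compl_singleton (x := q)) fun a ha k => D.disj p a ha (k ▸ hq)))
  obtain ⟨R, hR⟩ := D.far
  refine Data.h0 (m := m) (M := fun w => {b | (dist w p ≤ ε ∧ b = q) ∨ (ε ≤ dist w p ∧ b ∈ M w)})
    ⟨D.u1, ⟨fun w => ?_, ?_, ?_⟩, ?_, max R (‖p‖ + ε + 1), fun w hw => ?_⟩ fun w => ?_
  · rcases le_total (dist w p) ε with k | k
    · exact ⟨q, Or.inl ⟨k, rfl⟩⟩
    · exact ⟨_, Or.inr ⟨k, (D.u2.ne w).some_mem⟩⟩
  · rintro w a (⟨-, rfl⟩ | ⟨-, k⟩)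
    · exact D.u2.sph _ _ hq
    · exact D.u2.sph _ _ k
  · exact IsClosed.union (IsClosed.and (isClosed_le (by fun_prop) continuous_const)
      (isClosed_eq continuous_snd continuous_const))
      (IsClosed.and (isClosed_le continuous_const (by fun_prop)) D.u2.cl)
  · rintro w a ha (⟨k, rfl⟩ | ⟨-, k⟩)
    · exact (hb k).2 ha rfl
    · exact D.disj w a ha k
  · refine ⟨(hR w ((le_max_left _ _).trans hw)).1, ?_⟩
    rintro b (⟨k, -⟩ | ⟨-, k⟩)
    · rw [dist_eq_norm] at k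
      linarith [norm_sub_norm_le w p, le_max_right R (‖p‖ + ε + 1)]
    · exact (hR w ((le_max_left _ _).trans hw)).2 b k
  · rcases lt_trichotomy (dist w p) ε with k | k | k
    · right
      rintro b (⟨-, rfl⟩ | ⟨k1, -⟩) b' (⟨-, rfl⟩ | ⟨k2, -⟩) <;> first | rfl | linarith
    · refine Or.inl ((hb k.le).1 ?_)
      rintro rfl
      rw [dist_self] at k
      exact hε.ne k
    · refine (hs w ?_).imp_right fun k1 => ?_
      · rintro rfl
        rw [dist_self] at k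
        linarith
      · rintro b (⟨k2, -⟩ | ⟨-, k2⟩) b' (⟨k3, -⟩ | ⟨-, k3⟩) <;> first | exact k1 k2 k3 | linarith

lemma Usc.neg (h : Usc m) : Usc fun w => m (-w) :=
  ⟨fun _ => h.ne _, fun _ => h.sph _,
    h.cl.preimage (f := fun p : E 3 × E 3 => (-p.1, p.2)) (by fun_prop)⟩

lemma Data.symm (D : Data m M) : Data (fun w => M (-w)) fun w => m (-w) := by
  obtain ⟨R, hR⟩ := D.far
  refine ⟨D.u2.neg, D.u1.neg, fun w a h1 h2 => D.disj _ a h2 h1, R, fun w hw => ?_⟩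
  obtain ⟨h1, h2⟩ := hR (-w) (by rwa [norm_neg])
  simp only [norm_neg, inner_neg_right] at h1 h2
  exact ⟨fun a ha => by linarith [h2 a ha], fun b hb => by linarith [h1 b hb]⟩

theorem Data.h3 (D : Data m M) (p : E 3)
    (hs : ∀ w ≠ p, (m w).Subsingleton ∨ (M w).Subsingleton)
    (h : ∀ᶠ w in 𝓝 p, w ≠ p → (M w).Subsingleton) : False := by
  refine D.symm.h2 (-p) (fun w hw => (hs (-w) fun k => hw (neg_eq_iff_eq_neg.1 k)).symm) ?_
  have : Tendsto (fun w : E 3 => -w) (𝓝 (-p)) (𝓝 p) := by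
    simpa using continuous_neg.tendsto (-p)
  filter_upwards [this.eventually h] with w hw k using hw fun k' => k (neg_eq_iff_eq_neg.1 k')

end Pool.Agent.Lib.MP_997161_gt
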