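import Pool.Agent.Lib.MP_997161_gt.Log
import Pool.Agent.Lib.MP_997161_gt.Degree

/-! The join map of two disjoint continua of the sphere is null-homotopic. -/

set_option autoImplicit false

open Set Filter Topology Function Metric
open scoped RealInnerProductSpace

namespace Pool.Agent.Lib.MP_997161_gt

open Pool.Agent.Lib.MP_010b1d_an

lemma exists_basis {u v : E 3} (hu : ‖u‖ = 1) (hv : ‖v‖ = 1) (huv : ⟪u, v⟫ = 0) :
    ∃ β : OrthonormalBasis (Fin 3) ℝ (E 3), β 0 = u ∧ β 2 = v := by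
  have h : Orthonormal ℝ (({0, 2} : Set (Fin 3)).domRestrict ![u, 0, v]) := by
    constructor
    · rintro ⟨i, rfl | rfl⟩ <;> simp [hu, hv]
    · rintro ⟨i, rfl | rfl⟩ ⟨j, rfl | rfl⟩ h
      · exact absurd rfl h
      · simpa using huv
      · simpa [real_inner_comm] using huv
      · exact absurd rfl h
  obtain ⟨β, hβ⟩ := h.exists_orthonormalBasis_extension_of_card_eq (by simp)
  exact ⟨β, by simpa using hβ 0 (by simp), by simpa using hβ 2 (by simp)⟩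

lemma exists_basis1 {u : E 3} (hu : ‖u‖ = 1) :
    ∃ β : OrthonormalBasis (Fin 3) ℝ (E 3), β 0 = u := by
  have h : Orthonormal ℝ (({0} : Set (Fin 3)).domRestrict fun _ => u) := by
    constructor
    · rintro ⟨i, rfl⟩; simp [hu]
    · rintro ⟨i, rfl⟩ ⟨j, rfl⟩ h
      exact absurd rfl h
  obtain ⟨β, hβ⟩ := h.exists_orthonormalBasis_extension_of_card_eq (by simp)
  exact ⟨β, hβ 0 rfl⟩

lemma lowJ {a b u : E 3} (ha : ‖a‖ = 1) (hb : ‖b‖ = 1) {μ φ : ℝ} (hμ : 0 ≤ μ)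
    (h1 : ⟪a, b⟫ ≤ 1 - μ)
    (h2 : ⟪a, u⟫ ≤ 1 - μ) (h3 : ⟪b, u⟫ ≤ 1 - μ) (hφ : φ ∈ Icc (0 : ℝ) 1) :
    μ / 2 ≤ ‖φ • a - (1 - φ) • b - (2 * φ - 1) • u‖ := by
  set J := φ • a - (1 - φ) • b - (2 * φ - 1) • u with hJ
  have e1 : ⟪a, J⟫ = φ - (1 - φ) * ⟪a, b⟫ - (2 * φ - 1) * ⟪a, u⟫ := by
    simp [hJ, inner_sub_right, inner_smul_right, ha]
  have e2 : ⟪b, J⟫ = φ * ⟪a, b⟫ - (1 - φ) - (2 * φ - 1) * ⟪b, u⟫ := by
    simp [hJ, inner_sub_right, inner_smul_right, hb, real_inner_comm]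
  have i1 := abs_real_inner_le_norm a J
  have i2 := abs_real_inner_le_norm b J
  rw [ha, one_mul, abs_le] at i1
  rw [hb, one_mul, abs_le] at i2
  obtain ⟨h4, h5⟩ := hφ
  rcases le_total φ (1 / 2) with h | h
  · nlinarith [i2.1, mul_le_mul_of_nonneg_left h1 h4,
      mul_le_mul_of_nonneg_left h3 (show 0 ≤ 1 - 2 * φ by linarith)]
  · nlinarith [i1.2, mul_le_mul_of_nonneg_left h1 (show 0 ≤ 1 - φ by linarith),
      mul_le_mul_of_nonneg_left h2 (show 0 ≤ 2 * φ - 1 by linarith)]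

/-- `a` is close to `A` if it has nonzero weight, and `b` is close to `B` likewise. -/
def Near (A B : Set (E 3)) (η : ℝ) (a b : E 3) (φ : ℝ) : Prop :=
  φ ∈ Icc (0 : ℝ) 1 ∧ (φ ≠ 0 → ∃ a' ∈ A, ‖a - a'‖ ≤ η) ∧ (φ ≠ 1 → ∃ b' ∈ B, ‖b - b'‖ ≤ η)

lemma Near.approx {A B : Set (E 3)} {η : ℝ} {a b : E 3} {φ : ℝ} (h : Near A B η a b φ)
    (hA : A.Nonempty) (hB : B.Nonempty) : ∃ a' ∈ A, ∃ b' ∈ B,
      ‖(φ • a - (1 - φ) • b) - (φ • a' - (1 - φ) • b')‖ ≤ η := by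
  obtain ⟨⟨h0, h1⟩, h2, h3⟩ := h
  have k1 : ∃ a' ∈ A, φ * ‖a - a'‖ ≤ φ * η := by
    by_cases h : φ = 0
    · exact ⟨_, hA.some_mem, by simp [h]⟩
    · obtain ⟨a', ha', h'⟩ := h2 h
      exact ⟨a', ha', by gcongr⟩
  have k2 : ∃ b' ∈ B, (1 - φ) * ‖b - b'‖ ≤ (1 - φ) * η := by
    by_cases h : φ = 1
    · exact ⟨_, hB.some_mem, by simp [h]⟩
    · obtain ⟨b', hb', h'⟩ := h3 h
      exact ⟨b', hb', by gcongr⟩
  obtain ⟨a', ha', k1⟩ := k1
  obtain ⟨b', hb', k2⟩ := k2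
  refine ⟨a', ha', b', hb', ?_⟩
  have e : (φ • a - (1 - φ) • b) - (φ • a' - (1 - φ) • b') =
      φ • (a - a') - (1 - φ) • (b - b') := by module
  rw [e]
  refine (norm_sub_le _ _).trans ?_
  rw [norm_smul, norm_smul, Real.norm_of_nonneg h0, Real.norm_of_nonneg (sub_nonneg.2 h1)]
  linarith

section Coord
variable (β : OrthonormalBasis (Fin 3) ℝ (E 3))

/-- Horizontal part. -/
noncomputable def hor (x : E 3) : ℂ := ⟪β 0, x⟫ + ⟪β 1, x⟫ * Complex.I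

/-- Vector with given horizontal and vertical parts. -/
noncomputable def mk (z : ℂ) (v : ℝ) : E 3 := z.re • β 0 + z.im • β 1 + v • β 2

lemma mk_hor (x : E 3) : mk β (hor β x) ⟪β 2, x⟫ = x := by
  have := β.sum_repr' x
  rw [Fin.sum_univ_three] at this
  simpa [mk, hor] using this

lemma mk_eq_zero {z : ℂ} {v : ℝ} (h : mk β z v = 0) : z = 0 ∧ v = 0 := by
  have o := orthonormal_iff_ite.1 β.orthonormal
  have h0 := congrArg (fun x => ⟪β 0, x⟫) h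
  have h1 := congrArg (fun x => ⟪β 1, x⟫) h
  have h2 := congrArg (fun x => ⟪β 2, x⟫) h
  simp only [mk, inner_add_right, inner_smul_right, o, inner_zero_right] at h0 h1 h2
  simp at h0 h1 h2
  exact ⟨Complex.ext h0 h1, h2⟩

@[fun_prop] lemma continuous_hor : Continuous (hor β) := by unfold hor; fun_prop

@[fun_prop] lemma continuous_mk {X : Type*} [TopologicalSpace X] {z : X → ℂ} {v : X → ℝ}
    (hz : Continuous z) (hv : Continuous v) : Continuous fun x => mk β (z x) (v x) := by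
  unfold mk; fun_prop

lemma norm_sq_coord (x : E 3) : ‖x‖ ^ 2 = ⟪β 0, x⟫ ^ 2 + ⟪β 1, x⟫ ^ 2 + ⟪β 2, x⟫ ^ 2 := by
  have := β.sum_sq_inner_right x
  rw [Fin.sum_univ_three] at this
  exact this.symm

end Coord

lemma ray_aux {x y z s t : ℝ} (h1 : x ^ 2 + y ^ 2 + z ^ 2 = 1) (h2 : s ^ 2 + t ^ 2 = 1)
    (hs : 0 ≤ s) (ht : 0 < t) (hd : s * z + t * x ≤ s ^ 2 - t ^ 2) :
    z < 1 ∧ (0 < (1 - z) * t - (1 - s) * x ∨ (1 - s) * y ≠ 0) := by
  have hs1 : s < 1 := by nlinarith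
  have hz : z < 1 := by
    by_contra h
    have : x = 0 := by nlinarith
    nlinarith
  refine ⟨hz, ?_⟩
  by_contra hc
  push Not at hc
  obtain ⟨h3, h4⟩ := hc
  have hy : y = 0 := by
    rcases mul_eq_zero.1 h4 with h | h
    · linarith
    · exact h
  have hx : 0 < x := by
    by_contra h
    nlinarith [mul_pos (sub_pos.2 hz) ht]
  have h5 : ((1 - z) * t) ^ 2 ≤ ((1 - s) * x) ^ 2 :=
    pow_le_pow_left₀ (mul_pos (sub_pos.2 hz) ht).le (by linarith) 2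
  have e1 : x ^ 2 = (1 - z) * (1 + z) := by rw [hy] at h1; linarith
  have e2 : t ^ 2 = (1 - s) * (1 + s) := by linarith
  rw [mul_pow, mul_pow, e1, e2] at h5
  have h6 : s ≤ z := by
    by_contra h
    have := mul_pos (mul_pos (sub_pos.2 hz) (sub_pos.2 hs1)) (sub_pos.2 (not_le.1 h))
    nlinarith
  nlinarith [mul_pos ht hx, mul_le_mul_of_nonneg_left h6 hs]

lemma exists_frame {a b : E 3} (ha : ‖a‖ = 1) (hb : ‖b‖ = 1) (hab : a ≠ b) :
    ∃ (β : OrthonormalBasis (Fin 3) ℝ (E 3)) (s t : ℝ), 0 ≤ s ∧ 0 < t ∧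
      a = s • β 2 - t • β 0 ∧ b = s • β 2 + t • β 0 := by
  have h0 : 0 < ‖b - a‖ := norm_pos_iff.2 (sub_ne_zero.2 hab.symm)
  have hu : ‖‖b - a‖⁻¹ • (b - a)‖ = 1 := by
    rw [norm_smul, norm_inv, norm_norm, inv_mul_cancel₀ h0.ne']
  have : ∃ (β : OrthonormalBasis (Fin 3) ℝ (E 3)) (s : ℝ), 0 ≤ s ∧ β 0 = ‖b - a‖⁻¹ • (b - a) ∧
      a + b = (2 * s) • β 2 := by
    by_cases h : a + b = 0
    · obtain ⟨β, hβ⟩ := exists_basis1 hu
      exact ⟨β, 0, le_rfl, hβ, by simp [h]⟩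
    · have h1 : 0 < ‖a + b‖ := norm_pos_iff.2 h
      have hv : ‖‖a + b‖⁻¹ • (a + b)‖ = 1 := by
        rw [norm_smul, norm_inv, norm_norm, inv_mul_cancel₀ h1.ne']
      obtain ⟨β, h2, h3⟩ := exists_basis hu hv (by
        simp [inner_smul_left, inner_smul_right, inner_sub_left, inner_add_right, ha, hb,
          real_inner_comm]
        ring)
      refine ⟨β, ‖a + b‖ / 2, by positivity, h2, ?_⟩
      rw [h3, smul_smul, mul_div_cancel₀ _ two_ne_zero, mul_inv_cancel₀ h1.ne', one_smul]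
  obtain ⟨β, s, hs, h1, h2⟩ := this
  have h3 : (2 * (‖b - a‖ / 2)) • β 0 = b - a := by
    rw [h1, smul_smul, mul_div_cancel₀ _ two_ne_zero, mul_inv_cancel₀ h0.ne', one_smul]
  refine ⟨β, s, ‖b - a‖ / 2, hs, by positivity, ?_, ?_⟩
  · linear_combination (norm := module) (1 / 2 : ℝ) • h2 + (1 / 2 : ℝ) • h3
  · linear_combination (norm := module) (1 / 2 : ℝ) • h2 - (1 / 2 : ℝ) • h3

theorem join_null {K1 K2 : Set (E 3)} (h1 : IsCompact K1) (h2 : IsCompact K2)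
    (c1 : IsPreconnected K1) (c2 : IsPreconnected K2) (n1 : K1.Nonempty) (n2 : K2.Nonempty)
    (s1 : ∀ a ∈ K1, ‖a‖ = 1) (s2 : ∀ b ∈ K2, ‖b‖ = 1) (hd : ∀ a ∈ K1, a ∉ K2) :
    ∃ η > 0, ∃ G : ℝ × E 3 × E 3 × ℝ → E 3, Continuous G ∧
      (∀ a b φ, G (0, a, b, φ) = φ • a - (1 - φ) • b) ∧ (∀ a b φ, G (2, a, b, φ) ≠ 0) ∧
      ∀ t ∈ Icc (0 : ℝ) 2, ∀ a b φ, Near K1 K2 η a b φ → G (t, a, b, φ) ≠ 0 := by
  have hK := h1.prod h2
  obtain ⟨⟨a1, b1⟩, ⟨ha1, hb1⟩, hmax⟩ := hK.exists_isMaxOn (n1.prod n2)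
    (f := fun p : E 3 × E 3 => ⟪p.1, p.2⟫) (by fun_prop)
  obtain ⟨β, s, t, hs, ht, ea, eb⟩ := exists_frame (s1 _ ha1) (s2 _ hb1)
    fun h => hd _ ha1 (by simp only at h; rwa [h])
  simp only at ea eb ha1 hb1
  have o := orthonormal_iff_ite.1 β.orthonormal
  have hst : s ^ 2 + t ^ 2 = 1 := by
    have := norm_sq_coord β b1
    rw [s2 _ hb1, eb] at this
    simp [inner_add_right, inner_smul_right, o] at this
    linarith
  have hd1 : ⟪a1, b1⟫ = s ^ 2 - t ^ 2 := by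
    rw [ea, eb]
    simp [inner_add_right, inner_smul_right, inner_sub_left, inner_smul_left, o]
    ring
  let f : E 3 × E 3 → ℂ := fun p =>
    (1 - ⟪β 2, p.1⟫ : ℝ) * hor β p.2 - (1 - ⟪β 2, p.2⟫ : ℝ) * hor β p.1
  have hf : Continuous f := by fun_prop
  have kA : ∀ a ∈ K1, ⟪β 2, a⟫ < 1 ∧ f (a, b1) ∈ Complex.slitPlane := by
    intro a ha
    have h3 : ⟪a, b1⟫ ≤ ⟪a1, b1⟫ := hmax (show (a, b1) ∈ K1 ×ˢ K2 from ⟨ha, hb1⟩)
    have h4 := norm_sq_coord β a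
    rw [s1 _ ha, one_pow] at h4
    have := ray_aux h4.symm hst hs ht (by
      rw [hd1, eb] at h3
      simpa [inner_add_right, inner_smul_right, real_inner_comm] using h3)
    refine ⟨this.1, ?_⟩
    rw [Complex.mem_slitPlane_iff]
    simpa [f, hor, eb, inner_add_right, inner_smul_right, o] using this.2
  have kB : ∀ b ∈ K2, ⟪β 2, b⟫ < 1 ∧ f (a1, b) ∈ Complex.slitPlane := by
    intro b hb
    have h3 : ⟪a1, b⟫ ≤ ⟪a1, b1⟫ := hmax (show (a1, b) ∈ K1 ×ˢ K2 from ⟨ha1, hb⟩)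
    have h4 := norm_sq_coord β b
    rw [s2 _ hb, one_pow] at h4
    have := ray_aux (x := -⟪β 0, b⟫) (y := ⟪β 1, b⟫) (z := ⟪β 2, b⟫) (by linarith) hst hs ht (by
      rw [hd1, ea] at h3
      simp only [inner_sub_left, inner_smul_left, conj_trivial] at h3
      linarith)
    refine ⟨this.1, ?_⟩
    rw [Complex.mem_slitPlane_iff]
    simpa [f, hor, ea, inner_sub_right, inner_smul_right, o, add_comm] using this.2
  have kab : ∀ a ∈ K1, ∀ b ∈ K2, ⟪a, b⟫ < 1 := fun a ha b hb =>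
    inner_lt_one_iff_real_of_norm_eq_one (s1 a ha) (s2 b hb) |>.2 fun h => hd a ha (h ▸ hb)
  obtain ⟨μ, hμ, hμ'⟩ := hK.exists_forall_le' (a := 0) (f := fun p : E 3 × E 3 =>
    min (1 - ⟪p.1, p.2⟫) (min (1 - ⟪β 2, p.1⟫) (min (1 - ⟪β 2, p.2⟫) 1))) (by fun_prop)
    fun p hp => lt_min (sub_pos.2 (kab _ hp.1 _ hp.2)) (lt_min (sub_pos.2 (kA _ hp.1).1)
      (lt_min (sub_pos.2 (kB _ hp.2).1) one_pos))
  have low : ∀ a ∈ K1, ∀ b ∈ K2, ∀ σ ∈ Icc (0 : ℝ) 1, ∀ φ ∈ Icc (0 : ℝ) 1,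
      μ / 2 ≤ ‖φ • a - (1 - φ) • b - (2 * φ - 1) • σ • β 2‖ := by
    intro a ha b hb σ hσ φ hφ
    have := hμ' (a, b) ⟨ha, hb⟩
    simp only [le_min_iff] at this
    obtain ⟨k1, k2, k3, k4⟩ := this
    refine lowJ (s1 a ha) (s2 b hb) hμ.le (by linarith) ?_ ?_ hφ
    · rw [inner_smul_right, real_inner_comm]
      nlinarith [hσ.1, hσ.2]
    · rw [inner_smul_right, real_inner_comm]
      nlinarith [hσ.1, hσ.2]
  have horJ : ∀ (a b : E 3) (φ σ : ℝ), hor β (φ • a - (1 - φ) • b - (2 * φ - 1) • σ • β 2) =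
      φ * hor β a - (1 - φ) * hor β b := by
    intro a b φ σ
    simp [hor, inner_sub_right, inner_smul_right, o]
    ring
  have verJ : ∀ (a b : E 3) (φ σ : ℝ), ⟪β 2, φ • a - (1 - φ) • b - (2 * φ - 1) • σ • β 2⟫ =
      φ * ⟪β 2, a⟫ - (1 - φ) * ⟪β 2, b⟫ - (2 * φ - 1) * σ := by
    intro a b φ σ
    simp [inner_sub_right, inner_smul_right]
  have hf0 : ∀ a ∈ K1, ∀ b ∈ K2, f (a, b) ≠ 0 := by
    intro a ha b hb h
    have k1 := sub_pos.2 (kA a ha).1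
    have k2 := sub_pos.2 (kB b hb).1
    set α := 1 - ⟪β 2, a⟫ with hα
    set γ := 1 - ⟪β 2, b⟫ with hγ
    have k3 : α + γ ≠ 0 := by positivity
    have k4 : ((α : ℂ) + γ) ≠ 0 := by exact_mod_cast k3
    have := low a ha b hb 1 ⟨zero_le_one, le_rfl⟩ (γ / (α + γ))
      ⟨by positivity, div_le_one_of_le₀ (by linarith) (by positivity)⟩
    rw [← mk_hor β (_ - _ - _), horJ, verJ] at this
    have e1 : ((γ / (α + γ) : ℝ) : ℂ) * hor β a - (1 - ((γ / (α + γ) : ℝ) : ℂ)) * hor β b = 0 := by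
      have : (α : ℂ) * hor β b - γ * hor β a = 0 := h
      push_cast
      field_simp
      linear_combination -this
    have e2 : γ / (α + γ) * ⟪β 2, a⟫ - (1 - γ / (α + γ)) * ⟪β 2, b⟫ -
        (2 * (γ / (α + γ)) - 1) * 1 = 0 := by
      rw [show ⟪β 2, a⟫ = 1 - α by linarith, show ⟪β 2, b⟫ = 1 - γ by linarith]
      field_simp
      ring
    rw [e1, e2] at this
    simp [mk] at this
    linarith
  obtain ⟨l, hl, hl'⟩ := exists_log_ext h1 h2 c1 c2 hf hf0 ha1 hb1 (fun a ha => (kA a ha).2)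
    fun b hb => (kB b hb).2
  have hO : IsOpen {p : E 3 × E 3 | 0 < (Complex.exp (-l p) * f p).re ∧ ⟪β 2, p.1⟫ < 1 ∧
      ⟪β 2, p.2⟫ < 1} := by
    refine IsOpen.and ?_ (IsOpen.and ?_ ?_) <;> exact isOpen_lt (by fun_prop) (by fun_prop)
  obtain ⟨δ, hδ, hδ'⟩ := hK.exists_cthickening_subset_open hO (by
    rintro ⟨a, b⟩ ⟨ha, hb⟩
    refine ⟨?_, (kA a ha).1, (kB b hb).1⟩
    rw [← hl' a ha b hb, ← Complex.exp_add]
    simp)
  have nearO : ∀ a b a' b', a' ∈ K1 → b' ∈ K2 → ‖a - a'‖ ≤ min δ (μ / 4) →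
      ‖b - b'‖ ≤ min δ (μ / 4) → 0 < (Complex.exp (-l (a, b)) * f (a, b)).re ∧ ⟪β 2, a⟫ < 1 ∧
      ⟪β 2, b⟫ < 1 := by
    intro a b a' b' ha' hb' k1 k2
    refine hδ' (mem_cthickening_of_dist_le (a, b) (a', b') δ _ ⟨ha', hb'⟩ ?_)
    rw [Prod.dist_eq, dist_eq_norm, dist_eq_norm]
    exact max_le (k1.trans (min_le_left _ _)) (k2.trans (min_le_left _ _))
  have hη : 0 < min δ (μ / 4) := lt_min hδ (by positivity)
  let J : ℝ × E 3 × E 3 × ℝ → E 3 := fun p =>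
    p.2.2.2 • p.2.1 - (1 - p.2.2.2) • p.2.2.1 - (2 * p.2.2.2 - 1) • min p.1 1 • β 2
  have hJ : Continuous J := by fun_prop
  refine ⟨_, hη, fun p => mk β ((1 - max 0 (p.1 - 1) : ℝ) *
    (Complex.exp (-((min p.1 1 : ℝ) * l (p.2.1, p.2.2.1))) * hor β (J p)) - (max 0 (p.1 - 1) : ℝ))
    ((1 - max 0 (p.1 - 1)) * ⟪β 2, J p⟫), by fun_prop, fun a b φ => ?_, fun a b φ h => ?_,
    fun τ hτ a b φ hN h => ?_⟩
  · have := mk_hor β (J (0, a, b, φ))
    simpa [J] using this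
  · have := (mk_eq_zero β h).1
    norm_num at this
  · obtain ⟨k1, k2⟩ := mk_eq_zero β h
    rcases le_total τ 1 with hτ1 | hτ1
    · simp only [max_eq_left (sub_nonpos.2 hτ1), sub_zero, one_mul, Complex.ofReal_one,
        Complex.ofReal_zero, mul_eq_zero, Complex.exp_ne_zero, false_or] at k1 k2
      have e := mk_hor β (J (τ, a, b, φ))
      rw [k1, k2] at e
      obtain ⟨a', ha', b', hb', k3⟩ := hN.approx n1 n2
      have k4 := low a' ha' b' hb' (min τ 1) ⟨le_min hτ.1 zero_le_one, min_le_right _ _⟩ φ hN.1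
      have e' : φ • a - (1 - φ) • b = (2 * φ - 1) • min τ 1 • β 2 := by
        rw [← sub_eq_zero]
        simpa [mk, J] using e.symm
      rw [e', norm_sub_rev] at k3
      linarith [min_le_right δ (μ / 4)]
    · simp only [max_eq_right (sub_nonneg.2 hτ1), min_eq_right hτ1, J, horJ, verJ,
        Complex.ofReal_one, one_mul] at k1 k2
      rcases hτ.2.eq_or_lt with h2' | h2'
      · rw [h2'] at k1; norm_num at k1
      have k3 : φ * (1 - ⟪β 2, a⟫) = (1 - φ) * (1 - ⟪β 2, b⟫) := by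
        have := (mul_eq_zero.1 k2).resolve_left (by linarith)
        linarith
      have hφ0 : φ ≠ 0 := by
        rintro rfl
        obtain ⟨b', hb', k4⟩ := hN.2.2 zero_ne_one
        have := (nearO a1 b a1 b' ha1 hb' (by simpa using hη.le) k4).2.2
        linarith
      have hφ1 : φ ≠ 1 := by
        rintro rfl
        obtain ⟨a', ha', k4⟩ := hN.2.1 one_ne_zero
        have := (nearO a b1 a' b1 ha' hb1 k4 (by simpa using hη.le)).2.1
        linarith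
      obtain ⟨a', ha', k4⟩ := hN.2.1 hφ0
      obtain ⟨b', hb', k5⟩ := hN.2.2 hφ1
      obtain ⟨k6, k7, -⟩ := nearO a b a' b' ha' hb' k4 k5
      have k8 : ((φ * (1 - ⟪β 2, a⟫) : ℝ) : ℂ) = ((1 - φ) * (1 - ⟪β 2, b⟫) : ℝ) := by rw [k3]
      have k9 : (((2 - τ) * (1 - φ) : ℝ) : ℂ) * (Complex.exp (-l (a, b)) * f (a, b)) +
          ((1 - ⟪β 2, a⟫) * (τ - 1) : ℝ) = 0 := by
        simp only [f]
        push_cast at k1 k8 ⊢
        linear_combination (-(1 - ⟪β 2, a⟫ : ℂ)) * k1 +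
          (2 - τ) * Complex.exp (-l (a, b)) * hor β a * k8
      have k10 := congrArg Complex.re k9
      rw [Complex.add_re, Complex.re_ofReal_mul, Complex.ofReal_re, Complex.zero_re] at k10
      have : 0 < 1 - φ := sub_pos.2 (lt_of_le_of_ne hN.1.2 hφ1)
      have : 0 < (2 - τ) * (1 - φ) * (Complex.exp (-l (a, b)) * f (a, b)).re :=
        mul_pos (mul_pos (sub_pos.2 h2') this) k6
      nlinarith [mul_nonneg (sub_pos.2 k7).le (sub_nonneg.2 hτ1)]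

end Pool.Agent.Lib.MP_997161_gt
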