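import Mathlib

/-! A topological mountain pass lemma. -/

set_option autoImplicit false

open Set Filter Topology Function

namespace Pool.Agent.Lib.MP_997161_gt

variable {Y : Type*} [TopologicalSpace Y]

/-- Strict local maximum on `S`. -/
def SM (S : Set Y) (φ : Y → ℝ) (y : Y) : Prop := ∀ᶠ x in 𝓝[S] y, x ≠ y → φ x < φ y

/-- Near `y` the part of `S` above the level of `y` is connected and dense. -/
def Up (S : Set Y) (φ : Y → ℝ) (y : Y) : Prop :=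
  ∃ U ∈ 𝓝[S] y, U ⊆ S ∧ IsPreconnected (U ∩ {x | φ y < φ x}) ∧
    U ∩ {x | φ y ≤ φ x} ⊆ closure (U ∩ {x | φ y < φ x})

lemma meets {S C W : Set Y} {y : Y} (hy : y ∈ closure C) (hC : C ⊆ S) (hW : W ∈ 𝓝[S] y) :
    ∃ x ∈ W, x ∈ C := by
  obtain ⟨x, h1, h2⟩ := (mem_closure_iff_nhdsWithin_neBot.1 hy).nonempty_of_mem
    (inter_mem (nhdsWithin_mono y hC hW) self_mem_nhdsWithin)
  exact ⟨x, h1, h2⟩

lemma Up.not_max {S : Set Y} {φ : Y → ℝ} {y : Y} (h : Up S φ y) (hy : y ∈ S) :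
    ¬IsLocalMaxOn φ S y := by
  obtain ⟨U, hU, hUS, -, h⟩ := h
  intro hm
  obtain ⟨x, h1, h2⟩ := meets (h ⟨mem_of_mem_nhdsWithin hy hU, le_refl (φ y)⟩)
    (inter_subset_left.trans hUS) hm
  exact absurd (show φ x ≤ φ y from h1) (not_le.2 (show φ y < φ x from h2.2))

theorem pass_aux [T2Space Y] [NormalSpace Y] {S : Set Y} (hS : IsCompact S) (hc : IsPreconnected S)
    {φ : Y → ℝ} (hφ : Continuous φ)
    (lc : ∀ x ∈ S, ∀ O ∈ 𝓝 x, ∃ V ∈ 𝓝[S] x, V ⊆ S ∩ O ∧ IsPreconnected V)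
    (ty : ∀ y ∈ S, SM S φ y ∨ Up S φ y) {y1 y2 : Y} (h1 : y1 ∈ S) (h2 : y2 ∈ S)
    (m1 : SM S φ y1) (hle : φ y1 ≤ φ y2) : y1 = y2 := by
  by_contra hne
  let Q : ℝ → Prop := fun c => ∃ A B : Set Y, IsClosed A ∧ IsClosed B ∧ Disjoint A B ∧
    S ∩ {x | c ≤ φ x} ⊆ A ∪ B ∧ y1 ∈ A ∧ y2 ∈ B
  have cl : ∀ c, IsClosed (S ∩ {x | c ≤ φ x}) := fun c =>
    hS.isClosed.inter (isClosed_le continuous_const hφ)
  have down : ∀ c, Q c → ∃ t < c, Q t := by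
    rintro c ⟨A, B, hA, hB, hd, hs, k1, k2⟩
    obtain ⟨U, V, hU, hV, hAU, hBV, hd'⟩ := normal_separation hA hB hd
    obtain ⟨a, ha, ha'⟩ := (hS.diff (hU.union hV)).exists_forall_le' (a := -c)
      (f := fun x => -φ x) hφ.neg.continuousOn fun x hx => neg_lt_neg (lt_of_not_ge fun k =>
        hx.2 (union_subset_union hAU hBV (hs ⟨hx.1, k⟩)))
    refine ⟨(c - a) / 2, by linarith, (S ∩ {x | (c - a) / 2 ≤ φ x}) \ V ∪ {y1},
      (S ∩ {x | (c - a) / 2 ≤ φ x}) \ U ∪ {y2}, ((cl _).sdiff hV).union isClosed_singleton,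
      ((cl _).sdiff hU).union isClosed_singleton, ?_, fun x hx => ?_, Or.inr rfl, Or.inr rfl⟩
    · have k : ∀ x ∈ S ∩ {x | (c - a) / 2 ≤ φ x}, x ∈ U ∪ V := fun x hx => by
        by_contra k
        have k3 := ha' x ⟨hx.1, k⟩
        have k4 : (c - a) / 2 ≤ φ x := hx.2
        linarith
      refine hd'.mono ?_ ?_
      · rintro x (hx | rfl)
        · exact (k x hx.1).resolve_right hx.2
        · exact hAU k1
      · rintro x (hx | rfl)
        · exact (k x hx.1).resolve_left hx.2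
        · exact hBV k2
    · by_cases k : x ∈ V
      · exact Or.inr (Or.inl ⟨hx, disjoint_right.1 hd' k⟩)
      · exact Or.inl (Or.inl ⟨hx, k⟩)
  have sep : ∀ c, Q c → ∀ K, IsPreconnected K → K ⊆ S ∩ {x | c ≤ φ x} → y1 ∈ K → y2 ∉ K := by
    rintro c ⟨A, B, hA, hB, hd, hs, k1, k2⟩ K hK hKs l1 l2
    obtain ⟨x, -, hx⟩ := isPreconnected_closed_iff.1 hK A B hA hB (hKs.trans hs) ⟨y1, l1, k1⟩
      ⟨y2, l2, k2⟩
    exact disjoint_left.1 hd hx.1 hx.2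
  have q1 : Q (φ y1) := by
    refine ⟨{y1}, (S ∩ {x | φ y1 ≤ φ x}) \ {y1}, isClosed_singleton, ?_, disjoint_sdiff_right,
      fun x hx => ?_, rfl, ⟨h2, hle⟩, fun k => hne k.symm⟩
    · refine isClosed_of_closure_subset fun x hx => ⟨closure_minimal sdiff_subset (cl _) hx, ?_⟩
      rintro rfl
      obtain ⟨z, z1, z2⟩ := meets hx (fun z hz => hz.1.1) m1
      exact absurd (z1 z2.2) (not_lt.2 z2.1.2)
    · by_cases k : x = y1
      · exact Or.inl k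
      · exact Or.inr ⟨hx, k⟩
  obtain ⟨b, hb⟩ := hS.bddBelow_image hφ.continuousOn
  have bdd : BddBelow {t | Q t} := ⟨b, fun t ht => by
    by_contra k
    exact sep t ht S hc (fun x hx => ⟨hx, (not_le.1 k).le.trans (hb (mem_image_of_mem φ hx))⟩)
      h1 h2⟩
  set c := sInf {t | Q t} with hcdef
  have up : ∀ t, c < t → Q t := by
    intro t ht
    obtain ⟨s, ⟨A, B, hA, hB, hd, hs, k⟩, hst⟩ := exists_lt_of_csInf_lt (s := {t | Q t}) ⟨_, q1⟩ ht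
    exact ⟨A, B, hA, hB, hd, fun x hx => hs ⟨hx.1, hst.le.trans hx.2⟩, k⟩
  have hc1 : c < φ y1 := by
    obtain ⟨t, ht, k⟩ := down _ q1
    exact (csInf_le bdd k).trans_lt ht
  suffices Q c by
    obtain ⟨t, ht, k⟩ := down _ this
    exact absurd (csInf_le bdd k) (not_le.2 ht)
  let C : Set Y := {x | ∃ t, c < t ∧ ∃ K, IsPreconnected K ∧ K ⊆ S ∩ {x | t ≤ φ x} ∧ y1 ∈ K ∧ x ∈ K}
  have CS : C ⊆ S ∩ {x | c < φ x} := by
    rintro x ⟨t, ht, K, -, hK, -, hx⟩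
    exact ⟨(hK hx).1, ht.trans_le (hK hx).2⟩
  have loc : ∀ x ∈ S, c < φ x → ∃ V ∈ 𝓝[S] x, ∀ z ∈ V, ∀ z' ∈ V, z ∈ C → z' ∈ C := by
    intro x hx hx'
    obtain ⟨V, hV, hVs, hVc⟩ := lc x hx {z | (c + φ x) / 2 < φ z}
      (continuousAt_const.eventually_lt hφ.continuousAt (by linarith))
    refine ⟨V, hV, ?_⟩
    rintro z hz z' hz' ⟨t, ht, K, hK, hKs, k1, k2⟩
    refine ⟨min t ((c + φ x) / 2), lt_min ht (by linarith), K ∪ V, hK.union z k2 hz hVc, ?_,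
      Or.inl k1, Or.inr hz'⟩
    rintro w (hw | hw)
    · exact ⟨(hKs hw).1, le_trans (min_le_left _ _) (show t ≤ φ w from (hKs hw).2)⟩
    · exact ⟨(hVs hw).1, le_trans (min_le_right _ _)
        (le_of_lt (show (c + φ x) / 2 < φ w from (hVs hw).2))⟩
  have CS' : C ⊆ S := fun x hx => (CS hx).1
  refine ⟨closure C, (S ∩ {x | c ≤ φ x}) \ closure C, isClosed_closure, ?_, disjoint_sdiff_right,
    fun x hx => ?_, subset_closure ⟨φ y1, hc1, {y1}, isPreconnected_singleton,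
      singleton_subset_iff.2 ⟨h1, le_refl (φ y1)⟩, rfl, rfl⟩, ⟨h2, hc1.le.trans hle⟩, fun k => ?_⟩
  · refine isClosed_of_closure_subset fun y hy => ?_
    have hy1 := closure_minimal sdiff_subset (cl _) hy
    refine ⟨hy1, fun hyC => ?_⟩
    suffices ∃ W ∈ 𝓝[S] y, W ∩ {x | c ≤ φ x} ⊆ closure C by
      obtain ⟨W, hW, hW'⟩ := this
      obtain ⟨z, z1, z2⟩ := meets hy (fun z hz => hz.1.1) hW
      exact z2.2 (hW' ⟨z1, z2.1.2⟩)
    rcases (show c ≤ φ y from hy1.2).eq_or_lt with e | e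
    · rcases ty y hy1.1 with k | ⟨U, hU, hUS, hUc, hUd⟩
      · obtain ⟨z, z1, z2⟩ := meets hyC CS' k
        have z3 : c < φ z := (CS z2).2
        have := z1 (by rintro rfl; linarith)
        linarith
      · obtain ⟨z, z1, z2⟩ := meets hyC CS' hU
        rw [← e] at hUc hUd
        refine ⟨U, hU, hUd.trans (closure_mono fun x hx => ?_)⟩
        refine hUc.induction₂' (fun a b => a ∈ C → b ∈ C) (fun a ha => ?_)
          (fun _ _ _ _ _ _ k k' => k' ∘ k) ⟨z1, (CS z2).2⟩ hx z2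
        obtain ⟨V, hV, hV'⟩ := loc a (hUS ha.1) ha.2
        have haV := mem_of_mem_nhdsWithin (hUS ha.1) hV
        filter_upwards [nhdsWithin_mono a (inter_subset_left.trans hUS) hV] with w hw
        exact ⟨hV' _ haV _ hw, hV' _ hw _ haV⟩
    · obtain ⟨V, hV, hV'⟩ := loc y hy1.1 e
      obtain ⟨z, z1, z2⟩ := meets hyC CS' hV
      exact ⟨V, hV, fun x hx => subset_closure (hV' z z1 x hx.1 z2)⟩
  · by_cases k : x ∈ closure C
    · exact Or.inl k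
    · exact Or.inr ⟨hx, k⟩
  · obtain ⟨V, hV, hV'⟩ := loc y2 h2 (hc1.trans_le hle)
    obtain ⟨z, z1, z2⟩ := meets k CS' hV
    obtain ⟨t, ht, K, hK, hKs, k1, k2⟩ := hV' z z1 y2 (mem_of_mem_nhdsWithin h2 hV) z2
    exact sep t (up t ht) K hK hKs k1 k2

theorem pass [T2Space Y] [NormalSpace Y] {S : Set Y} (hS : IsCompact S) (hc : IsPreconnected S)
    {φ : Y → ℝ} (hφ : Continuous φ)
    (lc : ∀ x ∈ S, ∀ O ∈ 𝓝 x, ∃ V ∈ 𝓝[S] x, V ⊆ S ∩ O ∧ IsPreconnected V)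
    (ty : ∀ y ∈ S, SM S φ y ∨ Up S φ y) {y1 y2 : Y} (h1 : y1 ∈ S) (h2 : y2 ∈ S)
    (m1 : SM S φ y1) (m2 : SM S φ y2) : y1 = y2 := by
  rcases le_total (φ y1) (φ y2) with h | h
  · exact pass_aux hS hc hφ lc ty h1 h2 m1 h
  · exact (pass_aux hS hc hφ lc ty h2 h1 m2 h).symm

end Pool.Agent.Lib.MP_997161_gt
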