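import Pool.Agent.Lib.MP_997161_gt.Round
import Pool.Agent.Lib.MP_997161_gt.Pass

/-! Local structure of a positively curved surface. -/

set_option autoImplicit false

open Set Filter Topology Function Metric
open scoped RealInnerProductSpace

namespace Pool.Agent.Lib.MP_997161_gt

open Pool.Agent.Lib.MP_010b1d_an

/-- `g` is a local defining function at `q` with positive definite tangential Hessian. -/
structure Def (S : Set (E 3)) (q : E 3) (g : E 3 → ℝ) : Prop where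
  sm : ContDiffAt ℝ 3 g q
  ne : fderiv ℝ g q ≠ 0
  ev : ∀ᶠ x in 𝓝 q, x ∈ S ↔ g x = 0
  pos : ∀ v ≠ 0, fderiv ℝ g q v = 0 → 0 < fderiv ℝ (fderiv ℝ g) q v v

/-- The vector representing a linear form. -/
noncomputable def vec : (E 3 →L[ℝ] ℝ) →L[ℝ] E 3 :=
  ∑ i, (ContinuousLinearMap.apply ℝ ℝ (ev i)).smulRight (ev i)

lemma inner_vec (L : E 3 →L[ℝ] ℝ) (v : E 3) : ⟪vec L, v⟫ = L v := by
  conv_rhs => rw [← sum_ev v]
  simp [vec, sum_inner, inner_smul_left, ev, EuclideanSpace.inner_single_left, mul_comm]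

lemma vec_ne {L : E 3 →L[ℝ] ℝ} (h : L ≠ 0) : vec L ≠ 0 := fun k =>
  h (by ext v; rw [← inner_vec, k]; simp)

lemma exists_def {S : Set (E 3)} {q : E 3} {g : E 3 → ℝ} (sm : ContDiffAt ℝ 3 g q)
    (ne : fderiv ℝ g q ≠ 0) (ev : ∀ᶠ x in 𝓝 q, x ∈ S ↔ g x = 0)
    (pos : ∀ v w, fderiv ℝ g q v = 0 → fderiv ℝ g q w = 0 → LinearIndependent ℝ ![v, w] →
      (fderiv ℝ (fderiv ℝ g) q v w) ^ 2 <
        fderiv ℝ (fderiv ℝ g) q v v * fderiv ℝ (fderiv ℝ g) q w w) : ∃ g, Def S q g := by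
  obtain ⟨β, hβ⟩ := exists_basis1 (polar (vec_ne ne)).1
  have o := orthonormal_iff_ite.1 β.orthonormal
  have t : ∀ i ≠ 0, fderiv ℝ g q (β i) = 0 := fun i hi => by
    rw [← inner_vec, ← (polar (vec_ne ne)).2, ← hβ, inner_smul_left, o]
    simp [hi.symm]
  have n1 : β 1 ≠ 0 := β.orthonormal.ne_zero 1
  set B := fderiv ℝ (fderiv ℝ g) q with hB
  have h1 : B (β 1) (β 1) ≠ 0 := by
    intro k
    have := pos _ _ (t 1 (by decide)) (t 2 (by decide)) ((LinearIndependent.pair_iff' n1).2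
      fun a ha => by simpa [inner_smul_left, o] using congrArg (⟪·, β 2⟫) ha)
    rw [k, zero_mul] at this
    exact absurd this (not_lt.2 (sq_nonneg _))
  have h2 : ∀ v ≠ 0, fderiv ℝ g q v = 0 → 0 < B (β 1) (β 1) * B v v := by
    intro v hv hv'
    by_cases k : LinearIndependent ℝ ![β 1, v]
    · exact (sq_nonneg _).trans_lt (pos _ _ (t 1 (by decide)) hv' k)
    · rw [LinearIndependent.pair_iff' n1] at k
      push Not at k
      obtain ⟨a, rfl⟩ := k
      have ha : a ≠ 0 := left_ne_zero_of_smul hv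
      simp only [map_smul, smul_apply, smul_eq_mul]
      have : 0 < (a * B (β 1) (β 1)) ^ 2 := by positivity
      linarith
  rcases lt_or_gt_of_ne h1 with k | k
  · have e : fderiv ℝ (-g) = -fderiv ℝ g := funext fun x => fderiv_neg
    refine ⟨-g, sm.neg, by simpa [e] using ne, by simpa using ev, fun v hv hv' => ?_⟩
    rw [e, fderiv_neg]
    have := h2 v hv (by simpa [e] using hv')
    simpa using neg_of_mul_pos_right this k.le
  · exact ⟨g, sm, ne, ev, fun v hv hv' => pos_of_mul_pos_right (h2 v hv hv') k.le⟩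

lemma finsler {B : E 3 →L[ℝ] E 3 →L[ℝ] ℝ} {L : E 3 →L[ℝ] ℝ}
    (h : ∀ v ≠ 0, L v = 0 → 0 < B v v) :
    ∃ C c : ℝ, 0 < c ∧ ∀ v, c * ‖v‖ ^ 2 ≤ B v v + C * L v ^ 2 := by
  have hB : Continuous fun v => B v v := B.continuous₂.comp (continuous_id.prodMk continuous_id)
  obtain ⟨m, hm, hm'⟩ := ((isCompact_sphere (0 : E 3) 1).inter_right
    (isClosed_le hB continuous_const (g := fun _ => 0))).exists_forall_le' (a := 0)
    (f := fun v => L v ^ 2) (by fun_prop) fun v hv => by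
      have : L v ≠ 0 := fun k => absurd (h v (ne_zero_of_mem_unit_sphere ⟨v, hv.1⟩) k)
        (not_lt.2 hv.2)
      positivity
  obtain ⟨b, hb⟩ := (isCompact_sphere (0 : E 3) 1).exists_bound_of_continuousOn hB.continuousOn
  obtain ⟨c, hc, hc'⟩ := (isCompact_sphere (0 : E 3) 1).exists_forall_le' (a := 0)
    (f := fun v => B v v + (|b| + 1) / m * L v ^ 2) (by fun_prop) fun v hv => by
      have p : 0 < (|b| + 1) / m := by positivity
      by_cases k : B v v ≤ 0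
      · have k1 := mul_le_mul_of_nonneg_left (hm' v ⟨hv, k⟩) p.le
        rw [div_mul_cancel₀ _ hm.ne'] at k1
        have k2 := hb v hv
        rw [Real.norm_eq_abs] at k2
        linarith [neg_abs_le (B v v), le_abs_self b]
      · have := not_le.1 k
        positivity
  refine ⟨(|b| + 1) / m, c, hc, fun v => ?_⟩
  by_cases hv : v = 0
  · simp [hv]
  have k := mul_le_mul_of_nonneg_right (hc' _ (by simpa using (polar hv).1)) (sq_nonneg ‖v‖)
  simp only [map_smul, smul_apply, smul_eq_mul] at k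
  have := norm_ne_zero_iff.2 hv
  refine k.trans (le_of_eq ?_)
  field_simp

variable {S : Set (E 3)} {q : E 3} {g : E 3 → ℝ}

lemma Def.strict (h : Def S q g) : HasStrictFDerivAt g (fderiv ℝ g q) q :=
  h.sm.hasStrictFDerivAt three_ne_zero

lemma Def.sm2 (h : Def S q g) : ContDiffAt ℝ 2 (fderiv ℝ g) q :=
  h.sm.fderiv_right (by norm_num)

lemma Def.below (h : Def S q g) (hq : q ∈ S) :
    ∀ᶠ x in 𝓝[S] q, x ≠ q → fderiv ℝ g q (x - q) < 0 := by
  obtain ⟨C, c, hc, hC⟩ := finsler h.pos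
  set L := fderiv ℝ g q with hL
  set B := fderiv ℝ (fderiv ℝ g) q with hB
  have d2 := (h.sm2.differentiableAt two_ne_zero).hasFDerivAt.isLittleO.def (half_pos hc)
  have d1 := (h.sm.eventually (by simp)).mono fun y hy => (hy.differentiableAt three_ne_zero)
  obtain ⟨ε, hε, hb⟩ := Metric.eventually_nhds_iff_ball.1 (d2.and d1)
  have g0 : g q = 0 := h.ev.self_of_nhds.1 hq
  have small : ∀ᶠ x in 𝓝 q, C / 2 * L (x - q) < 1 :=
    ContinuousAt.eventually_lt (by fun_prop) continuousAt_const (by simp)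
  filter_upwards [mem_nhdsWithin_of_mem_nhds (ball_mem_nhds q hε), self_mem_nhdsWithin,
    mem_nhdsWithin_of_mem_nhds h.ev, mem_nhdsWithin_of_mem_nhds small] with x hx hxS hx' hs hne
  have gx : g x = 0 := hx'.1 hxS
  set v := x - q with hv
  have hv0 : 0 < ‖v‖ := norm_pos_iff.2 (sub_ne_zero.2 hne)
  have mem : ∀ t ∈ Icc (0 : ℝ) 1, q + t • v ∈ ball q ε := fun t ht =>
    (convex_ball q ε).add_smul_sub_mem (mem_ball_self hε) hx ht
  have der : ∀ t ∈ Icc (0 : ℝ) 1, HasDerivAt (fun t : ℝ => g (q + t • v) - t * L v +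
      C / 2 * t ^ 2 * L v ^ 2) (fderiv ℝ g (q + t • v) v - L v + C * t * L v ^ 2) t := by
    intro t ht
    have k1 := (hb _ (mem t ht)).2.hasFDerivAt.comp_hasDerivAt t
      (((hasDerivAt_id t).smul_const v).const_add q)
    refine ((k1.sub ((hasDerivAt_id t).mul_const (L v))).add
      ((((hasDerivAt_id t).pow 2).const_mul (C / 2)).mul_const (L v ^ 2))).congr_deriv ?_
    simp only [id, one_smul, one_mul, Nat.cast_ofNat, mul_one, Nat.add_one_sub_one, pow_one]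
    ring
  have mono := strictMonoOn_of_deriv_pos (convex_Icc (0 : ℝ) 1)
    (fun t ht => (der t ht).continuousAt.continuousWithinAt) (fun t ht => by
      rw [interior_Icc] at ht
      rw [(der t (Ioo_subset_Icc_self ht)).deriv]
      have k1 := (hb _ (mem t (Ioo_subset_Icc_self ht))).1
      rw [add_sub_cancel_left, norm_smul, Real.norm_of_nonneg ht.1.le] at k1
      have k2 := (fderiv ℝ g (q + t • v) - L - B (t • v)).le_opNorm v
      have k3 := mul_le_mul_of_nonneg_right k1 hv0.le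
      simp only [sub_apply, map_smul, smul_apply,
        smul_eq_mul, Real.norm_eq_abs] at k2 k3
      have k4 := (abs_le.1 (k2.trans k3)).1
      have k5 := mul_le_mul_of_nonneg_left (hC v) ht.1.le
      have k6 : 0 < t * (c * ‖v‖ ^ 2) := mul_pos ht.1 (by positivity)
      nlinarith) ⟨le_rfl, zero_le_one⟩ ⟨zero_le_one, le_rfl⟩ zero_lt_one
  simp only [zero_smul, add_zero, one_smul, hv, add_sub_cancel, g0, gx] at mono
  rw [← hv] at mono
  by_contra k
  nlinarith [mul_nonneg (not_lt.1 k) (sub_pos.2 hs).le]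

lemma exists_ell {n w : E 3} (hn : n ≠ 0) (hw : ∀ t : ℝ, w ≠ t • n) :
    ∃ k : E 3, ∀ v, ⟪n, v⟫ = 0 → ⟪w, v⟫ = 0 → ⟪k, v⟫ = 0 → v = 0 := by
  set u := ‖n‖⁻¹ • n with hu
  have u1 : ‖u‖ = 1 := (polar hn).1
  have h1 : w - ⟪u, w⟫ • u ≠ 0 := fun k => hw _ (by rw [sub_eq_zero.1 k, hu, smul_smul])
  obtain ⟨β, b0, b2⟩ := exists_basis u1 (polar h1).1 (by
    simp [inner_smul_right, inner_sub_right, u1])
  refine ⟨β 1, fun v k1 k2 k3 => ?_⟩
  have k4 : ⟪u, v⟫ = 0 := by rw [hu, inner_smul_left, k1, mul_zero]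
  have k5 : ⟪β 2, v⟫ = 0 := by
    rw [b2, inner_smul_left, inner_sub_left, k2, inner_smul_left u, k4]
    simp
  have := β.sum_repr' v
  rw [Fin.sum_univ_three, k3, b0, k4, k5] at this
  simpa using this.symm

lemma exists_not_par {n : E 3} (hn : n ≠ 0) : ∃ w : E 3, ∀ t : ℝ, w ≠ t • n := by
  obtain ⟨β, hβ⟩ := exists_basis1 (polar hn).1
  have o := orthonormal_iff_ite.1 β.orthonormal
  refine ⟨β 1, fun t k => ?_⟩
  have := o 1 1
  rw [← (polar hn).2, ← hβ] at k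
  conv_lhs at this => enter [3]; rw [k]
  simp [inner_smul_right, o] at this

lemma Def.chart (h : Def S q g) (hq : q ∈ S) {w : E 3} (hw : ∀ t : ℝ, w ≠ t • vec (fderiv ℝ g q))
    {O : Set (E 3)} (hO : O ∈ 𝓝 q) : ∃ (l : E 3 → ℝ × ℝ) (ε : ℝ) (π : ℝ × ℝ → E 3), 0 < ε ∧
      (∀ x, (l x).1 = ⟪w, x⟫) ∧ ContinuousOn π (ball (l q) ε) ∧
      (∀ z ∈ ball (l q) ε, π z ∈ S ∩ O ∧ l (π z) = z) ∧ π '' ball (l q) ε ∈ 𝓝[S] q := by
  obtain ⟨k, hk⟩ := exists_ell (vec_ne h.ne) hw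
  let l : E 3 →L[ℝ] ℝ × ℝ := (innerSL ℝ w).prod (innerSL ℝ k)
  have inj : Injective ((fderiv ℝ g q).prod l).toLinearMap := by
    refine (injective_iff_map_eq_zero _).2 fun v hv => ?_
    have : fderiv ℝ g q v = 0 ∧ ⟪w, v⟫ = 0 ∧ ⟪k, v⟫ = 0 := by simpa [l] using hv
    exact hk v (by rw [inner_vec, this.1]) this.2.1 this.2.2
  let e : E 3 ≃L[ℝ] ℝ × ℝ × ℝ :=
    (LinearMap.linearEquivOfInjective _ inj (by simp)).toContinuousLinearEquiv
  have hs : HasStrictFDerivAt (fun x => (g x, l x)) (e : E 3 →L[ℝ] ℝ × ℝ × ℝ) q :=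
    h.strict.prodMk l.hasStrictFDerivAt
  have g0 : g q = 0 := h.ev.self_of_nhds.1 hq
  let P := hs.toOpenPartialHomeomorph _
  have c0 : Tendsto (fun z : ℝ × ℝ => ((0 : ℝ), z)) (𝓝 (l q)) (𝓝 (g q, l q)) := by
    rw [g0]; exact (Continuous.prodMk_right (0 : ℝ)).tendsto _
  obtain ⟨ε, hε, hb⟩ := Metric.eventually_nhds_iff_ball.1 (c0.eventually
    ((P.open_target.eventually_mem hs.image_mem_toOpenPartialHomeomorph_target).and
      (hs.localInverse_tendsto.eventually (h.ev.and hO))))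
  refine ⟨l, ε, fun z => P.symm (0, z), hε, fun x => rfl, ?_, fun z hz => ?_, ?_⟩
  · exact P.continuousOn_symm.comp (Continuous.prodMk_right (0 : ℝ)).continuousOn
      fun z hz => (hb z hz).1
  · have := P.right_inv (hb z hz).1
    exact ⟨⟨(hb z hz).2.1.2 (congrArg Prod.fst this), (hb z hz).2.2⟩, congrArg Prod.snd this⟩
  · filter_upwards [self_mem_nhdsWithin, mem_nhdsWithin_of_mem_nhds h.ev,
      mem_nhdsWithin_of_mem_nhds hs.eventually_left_inverse,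
      mem_nhdsWithin_of_mem_nhds (l.continuous.continuousAt.eventually (ball_mem_nhds (l q) hε))]
      with x k1 k2 k3 k4
    refine ⟨l x, k4, ?_⟩
    rw [k2.1 k1] at k3
    exact k3

lemma Def.lc (h : Def S q g) (hq : q ∈ S) {O : Set (E 3)} (hO : O ∈ 𝓝 q) :
    ∃ V ∈ 𝓝[S] q, V ⊆ S ∩ O ∧ IsPreconnected V := by
  obtain ⟨w, hw⟩ := exists_not_par (vec_ne h.ne)
  obtain ⟨l, ε, π, -, -, h1, h2, h3⟩ := h.chart hq hw hO
  exact ⟨_, h3, image_subset_iff.2 fun z hz => (h2 z hz).1,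
    (convex_ball _ _).isPreconnected.image _ h1⟩

lemma up_of_chart {φ : E 3 → ℝ} {π : ℝ × ℝ → E 3} {D D' : Set (ℝ × ℝ)} (h1 : ContinuousOn π D)
    (h2 : ∀ z ∈ D, π z ∈ S) (h3 : π '' D ∈ 𝓝[S] q) (h4 : IsPreconnected D')
    (h5 : ∀ z, z ∈ D' ↔ z ∈ D ∧ φ q < φ (π z))
    (h6 : ∀ z ∈ D, φ q ≤ φ (π z) → z ∈ closure D') : Up S φ q := by
  have e : π '' D ∩ {x | φ q < φ x} = π '' D' := by
    ext x
    constructor
    · rintro ⟨⟨z, hz, rfl⟩, k⟩
      exact ⟨z, (h5 z).2 ⟨hz, k⟩, rfl⟩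
    · rintro ⟨z, hz, rfl⟩
      exact ⟨⟨z, ((h5 z).1 hz).1, rfl⟩, ((h5 z).1 hz).2⟩
  have sub : D' ⊆ D := fun z hz => ((h5 z).1 hz).1
  refine ⟨_, h3, image_subset_iff.2 h2, e ▸ h4.image _ (h1.mono sub), ?_⟩
  rintro _ ⟨⟨z, hz, rfl⟩, k⟩
  rw [e]
  exact ((h1 z hz).mono sub).mem_closure_image (h6 z hz k)

lemma Def.up_reg (h : Def S q g) (hq : q ∈ S) {w : E 3}
    (hw : ∀ t : ℝ, w ≠ t • vec (fderiv ℝ g q)) : Up S (fun x => ⟪w, x⟫) q := by
  obtain ⟨l, ε, π, hε, h0, h1, h2, h3⟩ := h.chart hq hw univ_mem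
  have e : ∀ z ∈ ball (l q) ε, ⟪w, π z⟫ = z.1 := fun z hz => by rw [← h0, (h2 z hz).2]
  refine up_of_chart (D' := ball (l q) ε ∩ {z | ⟪w, q⟫ < z.1}) h1 (fun z hz => (h2 z hz).1.1) h3
    ((convex_ball _ _).inter (convex_halfSpace_gt (LinearMap.fst ℝ ℝ ℝ).isLinear _)).isPreconnected
    (fun z => and_congr_right fun hz => by rw [e z hz]; rfl) fun z hz k => ?_
  refine isOpen_ball.inter_closure ⟨hz, ?_⟩
  rw [e z hz] at k
  have : {z : ℝ × ℝ | ⟪w, q⟫ < z.1} = Ioi ⟪w, q⟫ ×ˢ univ := by ext; simp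
  rw [this, closure_prod_eq, closure_Ioi, closure_univ]
  exact ⟨k, mem_univ _⟩

lemma punct (c : ℝ × ℝ) (ε : ℝ) : IsPreconnected (ball c ε \ {c}) := by
  have hr : 1 < Module.rank ℝ (ℝ × ℝ) := by simp; norm_num
  have h1 := ((isPreconnected_sphere hr (0 : ℝ × ℝ) 1).prod (isPreconnected_Ioo (a := (0 : ℝ))
    (b := ε))).image (fun p : (ℝ × ℝ) × ℝ => c + p.2 • p.1) (by fun_prop)
  convert h1 using 1
  ext y
  constructor
  · intro hy
    have h0 : 0 < ‖y - c‖ := norm_pos_iff.2 (sub_ne_zero.2 hy.2)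
    refine ⟨(‖y - c‖⁻¹ • (y - c), ‖y - c‖), ⟨?_, h0, mem_ball_iff_norm.1 hy.1⟩, ?_⟩
    · rw [mem_sphere_zero_iff_norm, norm_smul, norm_inv, norm_norm, inv_mul_cancel₀ h0.ne']
    · simp only [smul_smul, mul_inv_cancel₀ h0.ne', one_smul, add_sub_cancel]
  · rintro ⟨p, ⟨h2, h3⟩, rfl⟩
    rw [mem_sphere_zero_iff_norm] at h2
    have : ‖c + p.2 • p.1 - c‖ = p.2 := by
      rw [add_sub_cancel_left, norm_smul, h2, mul_one, Real.norm_of_nonneg h3.1.le]
    refine ⟨mem_ball_iff_norm.2 (by rw [this]; exact h3.2), fun k => ?_⟩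
    rw [show c + p.2 • p.1 = c from k, sub_self, norm_zero] at this
    exact h3.1.ne this

lemma Def.up_min (h : Def S q g) (hq : q ∈ S) {φ : E 3 → ℝ}
    (hm : ∀ᶠ x in 𝓝[S] q, x ≠ q → φ q < φ x) : Up S φ q := by
  obtain ⟨w, hw⟩ := exists_not_par (vec_ne h.ne)
  obtain ⟨l, ε, π, hε, -, h1, h2, h3⟩ := h.chart hq hw (eventually_nhdsWithin_iff.1 hm)
  obtain ⟨z0, k1, k2⟩ := mem_of_mem_nhdsWithin hq h3
  have k3 : z0 = l q := by rw [← k2, (h2 z0 k1).2]
  rw [k3] at k2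
  refine up_of_chart h1 (fun z hz => (h2 z hz).1.1) h3 (punct (l q) ε)
    (fun z => and_congr_right fun hz => ⟨fun k => ?_, fun k k' => ?_⟩) fun z hz _ => ?_
  · exact (h2 z hz).1.2 (h2 z hz).1.1 fun k' => k (by rw [← k', (h2 z hz).2]; rfl)
  · rw [mem_singleton_iff.1 k', k2] at k
    exact lt_irrefl _ k
  · exact isOpen_ball.inter_closure ⟨hz, dense_compl_singleton _ _⟩

lemma Def.sm_pos (h : Def S q g) (hq : q ∈ S) {t : ℝ} (ht : 0 < t) :
    SM S (fun x => ⟪t • vec (fderiv ℝ g q), x⟫) q := by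
  filter_upwards [h.below hq] with x hx k
  have := mul_neg_of_pos_of_neg ht (hx k)
  simp only [inner_smul_left, inner_vec, conj_trivial]
  rw [map_sub] at this
  linarith

lemma Def.tri (h : Def S q g) (hq : q ∈ S) {w : E 3} (hw : w ≠ 0) :
    (∃ t : ℝ, 0 < t ∧ w = t • vec (fderiv ℝ g q)) ∨ Up S (fun x => ⟪w, x⟫) q := by
  by_cases k : ∀ t : ℝ, w ≠ t • vec (fderiv ℝ g q)
  · exact Or.inr (h.up_reg hq k)
  push Not at k
  obtain ⟨t, rfl⟩ := k
  rcases lt_or_gt_of_ne (left_ne_zero_of_smul hw) with ht | ht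
  · refine Or.inr (h.up_min hq ?_)
    filter_upwards [h.sm_pos hq (neg_pos.2 ht)] with x hx k
    simpa using hx k
  · exact Or.inl ⟨t, ht, rfl⟩

end Pool.Agent.Lib.MP_997161_gt
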