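import Mathlib

/-! Continuous logarithms on a product of connected spaces. -/

set_option autoImplicit false

open Set Filter Topology Function Complex

namespace Pool.Agent.Lib.MP_997161_gt

lemma log_unique {X : Type*} [TopologicalSpace X] [PreconnectedSpace X] {f g : X → ℂ}
    (hf : Continuous f) (hg : Continuous g) (h : ∀ x, exp (f x) = exp (g x)) (a : X)
    (ha : f a = g a) : f = g :=
  isCoveringMap_exp.eq_of_comp_eq hf hg (funext fun x => Subtype.ext (h x)) a ha

lemma exists_log {X Y : Type*} [TopologicalSpace X] [TopologicalSpace Y] [CompactSpace X]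
    [PreconnectedSpace X] [PreconnectedSpace Y] {f : X × Y → ℂ} (hf : Continuous f)
    (h0 : ∀ p, f p ≠ 0) (a1 : X) (b1 : Y) (ha : ∀ a, f (a, b1) ∈ slitPlane)
    (hb : ∀ b, f (a1, b) ∈ slitPlane) : ∃ l : X × Y → ℂ, Continuous l ∧ ∀ p, exp (l p) = f p := by
  have near : ∀ b0 : Y, ∀ᶠ b in 𝓝 b0, ∀ a, f (a, b) / f (a, b0) ∈ slitPlane ∧
      f (a, b0) / f (a, b) ∈ slitPlane := by
    intro b0
    have := (isCompact_univ (X := X)).eventually_forall_of_forall_eventually (x₀ := b0)
      (P := fun b a => f (a, b) / f (a, b0) ∈ slitPlane ∧ f (a, b0) / f (a, b) ∈ slitPlane)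
      fun a _ => by
        have c1 : Continuous fun z : Y × X => f (z.2, z.1) / f (z.2, b0) :=
          Continuous.div (by fun_prop) (by fun_prop) fun _ => h0 _
        have c2 : Continuous fun z : Y × X => f (z.2, b0) / f (z.2, z.1) :=
          Continuous.div (by fun_prop) (by fun_prop) fun _ => h0 _
        refine (c1.continuousAt.eventually_mem (isOpen_slitPlane.mem_nhds ?_)).and
          (c2.continuousAt.eventually_mem (isOpen_slitPlane.mem_nhds ?_)) <;>
        simp [div_self (h0 _)]
    filter_upwards [this] with b hb a using hb a (mem_univ _)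
  let P : Y → Prop := fun b => ∃ l : X → ℂ, Continuous l ∧ ∀ a, exp (l a) = f (a, b)
  have step : ∀ b b', (∀ a, f (a, b') / f (a, b) ∈ slitPlane) → P b → P b' := by
    rintro b b' h ⟨l, hl, hl'⟩
    refine ⟨fun a => l a + log (f (a, b') / f (a, b)), hl.add ?_, fun a => ?_⟩
    · exact Continuous.clog (Continuous.div (by fun_prop) (by fun_prop) fun _ => h0 _) h
    · rw [exp_add, hl', exp_log (div_ne_zero (h0 _) (h0 _)), mul_div_cancel₀ _ (h0 _)]
  have hP : ∀ b, P b := fun b =>
    PreconnectedSpace.induction₂' (fun b b' => P b → P b') (fun b0 => by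
      filter_upwards [near b0] with b hb
      exact ⟨step _ _ fun a => (hb a).1, step _ _ fun a => (hb a).2⟩)
      ⟨fun _ _ _ h h' => h' ∘ h⟩ b1 b
      ⟨fun a => log (f (a, b1)), Continuous.clog (by fun_prop) ha, fun a => exp_log (h0 _)⟩
  have hQ : ∀ b, ∃ l : X → ℂ, Continuous l ∧ (∀ a, exp (l a) = f (a, b)) ∧
      l a1 = log (f (a1, b)) := by
    intro b
    obtain ⟨l, hl, hl'⟩ := hP b
    refine ⟨fun a => l a - l a1 + log (f (a1, b)), by fun_prop, fun a => ?_, by simp⟩
    rw [exp_add, exp_sub, hl', hl', exp_log (h0 _), div_mul_cancel₀ _ (h0 _)]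
  choose l hl hl' hl1 using hQ
  refine ⟨fun p => l p.2 p.1, continuous_iff_continuousAt.2 fun p0 => ?_, fun p => hl' _ _⟩
  obtain ⟨a0, b0⟩ := p0
  have c1 : ∀ b, Continuous fun a : X => f (a, b) / f (a, b0) := fun b =>
    Continuous.div (by fun_prop) (by fun_prop) fun _ => h0 _
  have e : (fun p : X × Y => l p.2 p.1) =ᶠ[𝓝 (a0, b0)] fun p => l b0 p.1 +
      log (f p / f (p.1, b0)) - log (f (a1, p.2) / f (a1, b0)) - log (f (a1, b0)) +
      log (f (a1, p.2)) := by
    filter_upwards [continuousAt_snd.eventually (near b0)] with p hp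
    refine congrFun (log_unique (hl p.2) (g := fun a => l b0 a +
      log (f (a, p.2) / f (a, b0)) - log (f (a1, p.2) / f (a1, b0)) - log (f (a1, b0)) +
      log (f (a1, p.2))) ?_ (fun a => ?_) a1 ?_) p.1
    · exact ((((hl b0).add (Continuous.clog (c1 p.2) fun a => (hp a).1)).sub
        continuous_const).sub continuous_const).add continuous_const
    · simp only [exp_add, exp_sub, hl', exp_log (h0 _), exp_log (div_ne_zero (h0 _) (h0 _))]
      have := h0 (a, b0)
      have := h0 (a1, b0)
      have := h0 (a1, p.2)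
      field_simp
    · simp only [hl1]
      ring
  refine ContinuousAt.congr ?_ e.symm
  have c2 : Continuous fun p : X × Y => f p / f (p.1, b0) :=
    Continuous.div (by fun_prop) (by fun_prop) fun _ => h0 _
  have c3 : Continuous fun p : X × Y => f (a1, p.2) / f (a1, b0) :=
    Continuous.div (by fun_prop) (by fun_prop) fun _ => h0 _
  refine (((((hl b0).comp continuous_fst).continuousAt.add
    (c2.continuousAt.clog ?_)).sub (c3.continuousAt.clog ?_)).sub continuousAt_const).add
    (Continuous.clog (by fun_prop) fun p => hb _).continuousAt <;> simp [div_self (h0 _)]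

/-- Extended form: a continuous function on the ambient space. -/
lemma exists_log_ext {X : Type} [MetricSpace X] {K1 K2 : Set X} (h1 : IsCompact K1)
    (h2 : IsCompact K2) (c1 : IsPreconnected K1) (c2 : IsPreconnected K2) {f : X × X → ℂ}
    (hf : Continuous f) (h0 : ∀ a ∈ K1, ∀ b ∈ K2, f (a, b) ≠ 0) {a1 b1 : X} (ha1 : a1 ∈ K1)
    (hb1 : b1 ∈ K2) (ha : ∀ a ∈ K1, f (a, b1) ∈ slitPlane)
    (hb : ∀ b ∈ K2, f (a1, b) ∈ slitPlane) :
    ∃ l : X × X → ℂ, Continuous l ∧ ∀ a ∈ K1, ∀ b ∈ K2, exp (l (a, b)) = f (a, b) := by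
  have := isCompact_iff_compactSpace.1 h1
  have := Subtype.preconnectedSpace c1
  have := Subtype.preconnectedSpace c2
  obtain ⟨l, hl, hl'⟩ := exists_log (X := K1) (Y := K2) (f := fun p => f (p.1, p.2))
    (by fun_prop) (fun p => h0 _ p.1.2 _ p.2.2) ⟨a1, ha1⟩ ⟨b1, hb1⟩ (fun a => ha _ a.2)
    fun b => hb _ b.2
  obtain ⟨g, hg⟩ := ContinuousMap.exists_extension'
    (h1.isClosed.isClosedEmbedding_subtypeVal.prodMap h2.isClosed.isClosedEmbedding_subtypeVal)
    (⟨l, hl⟩ : C(K1 × K2, ℂ))
  refine ⟨g, g.continuous, fun a ha b hb => ?_⟩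
  have := congrFun hg (⟨a, ha⟩, ⟨b, hb⟩)
  simp only [comp_apply, Prod.map_apply, ContinuousMap.coe_mk] at this
  rw [this, hl']

end Pool.Agent.Lib.MP_997161_gt
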