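import Pool.Agent.Lib.MP_997161_gt.Six

/-! At most one six-normal point forces a constant support function. -/

set_option autoImplicit false

open Set Filter Topology Function Metric MeasureTheory
open scoped RealInnerProductSpace

namespace Pool.Agent.Lib.MP_997161_gt

open Pool.Agent.Lib.MP_010b1d_an

/-- Global minima of `σ * hp`. -/
def arg (X : E 3 → E 3) (σ : ℝ) (p : E 3) : Set (E 3) :=
  {u | ‖u‖ = 1 ∧ ∀ v, ‖v‖ = 1 → σ * hp X p u ≤ σ * hp X p v}

variable {X : E 3 → E 3}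

lemma Sup.hp_cont (h : Sup X) (σ : ℝ) {p u : E 3} (hu : ‖u‖ = 1) :
    ContinuousAt (fun z : E 3 × E 3 => σ * hp X z.1 z.2) (p, u) := by
  have h1 := (h.smooth u (norm_ne_zero_iff.1 (by simp [hu]))).continuousAt
  have h2 : ContinuousAt (fun z : E 3 × E 3 => X z.2) (p, u) :=
    ContinuousAt.comp (f := fun z : E 3 × E 3 => z.2) (x := (p, u)) h1 continuousAt_snd
  unfold hp
  fun_prop

lemma Sup.hp_contOn (h : Sup X) (σ : ℝ) (p : E 3) :
    ContinuousOn (fun u => σ * hp X p u) (sphere 0 1) := fun u hu =>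
  (ContinuousAt.comp (f := fun u => (p, u)) (h.hp_cont σ (by simpa using hu))
    (by fun_prop)).continuousWithinAt

lemma hp_cont' (σ : ℝ) (u : E 3) : Continuous fun p => σ * hp X p u := by
  unfold hp; fun_prop

lemma Sup.usc (h : Sup X) (σ : ℝ) : Usc (arg X σ) := by
  refine ⟨fun p => ?_, fun _ _ ha => ha.1, ?_⟩
  · obtain ⟨u, hu, k⟩ := (isCompact_sphere (0 : E 3) 1).exists_isMinOn
      (NormedSpace.sphere_nonempty.2 zero_le_one) (h.hp_contOn σ p)
    exact ⟨u, by simpa using hu, fun v hv => k (by simpa using hv)⟩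
  · refine isClosed_of_closure_subset fun z hz => ?_
    have h1 : ‖z.2‖ = 1 := closure_minimal (t := {z : E 3 × E 3 | ‖z.2‖ = 1}) (fun y hy => hy.1)
      (isClosed_eq (by fun_prop) continuous_const) hz
    refine ⟨h1, fun v hv => ?_⟩
    exact ContinuousWithinAt.closure_le hz (h.hp_cont σ h1).continuousWithinAt
      ((hp_cont' σ v).comp continuous_fst).continuousWithinAt fun y hy => hy.2 v hv

lemma arg_ext {σ : ℝ} {p u : E 3} (hu : u ∈ arg X σ p) : LExt X σ p u :=
  ⟨hu.1, eventually_nhdsWithin_of_forall fun v hv => hu.2 v (by simpa using hv)⟩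

lemma Sup.robust1 (h : Sup X) {σ c : ℝ} {p a : E 3} {U V : Set (E 3)} (hU : IsOpen U)
    (hV : IsOpen V) (hd : Disjoint U V) (hc : arg X σ p ⊆ U ∪ V) (ha : a ∈ arg X σ p)
    (haU : a ∈ U) (hlt : σ * hp X p a < σ * c) :
    ∀ᶠ q in 𝓝 p, ∃ u ∈ U, LExt X σ q u ∧ σ * hp X q u < σ * c := by
  have h1 := ((isCompact_sphere (0 : E 3) 1).diff (hU.union hV)
    ).eventually_forall_of_forall_eventually (x₀ := p)
    (P := fun q v => σ * hp X q a < σ * hp X q v) fun v hv => by
      have hv1 : ‖v‖ = 1 := by simpa using hv.1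
      refine ((hp_cont' σ a).comp continuous_fst).continuousAt.eventually_lt (h.hp_cont σ hv1) ?_
      refine lt_of_not_ge fun k => hv.2 (hc ⟨hv1, fun y hy => le_trans k (ha.2 y hy)⟩)
  filter_upwards [h1, (hp_cont' σ a).continuousAt.eventually_lt continuousAt_const hlt]
    with q k1 k2
  have ha' : a ∈ sphere (0 : E 3) 1 \ V := ⟨by simpa using ha.1, disjoint_left.1 hd haU⟩
  obtain ⟨u, hu, k⟩ := ((isCompact_sphere (0 : E 3) 1).diff hV).exists_isMinOn ⟨a, ha'⟩
    ((h.hp_contOn σ q).mono sdiff_subset)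
  have k3 : σ * hp X q u ≤ σ * hp X q a := k ha'
  have huU : u ∈ U := by
    by_contra k4
    exact absurd (k1 u ⟨hu.1, fun k5 => k5.elim k4 hu.2⟩) (not_lt.2 k3)
  refine ⟨u, huU, ⟨by simpa using hu.1, ?_⟩, k3.trans_lt k2⟩
  filter_upwards [self_mem_nhdsWithin, mem_nhdsWithin_of_mem_nhds (hU.mem_nhds huU)] with v v1 v2
  exact k ⟨v1, disjoint_left.1 hd v2⟩

lemma Sup.robust (h : Sup X) {σ c : ℝ} {p : E 3} (hn : ¬IsPreconnected (arg X σ p))
    (hlt : ∀ a ∈ arg X σ p, σ * hp X p a < σ * c) : RR X σ p c := by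
  rw [isPreconnected_iff_subset_of_fully_disjoint_closed ((h.usc σ).compact p).isClosed] at hn
  push Not at hn
  obtain ⟨A, B, hA, hB, hc, hd, h1, h2⟩ := hn
  obtain ⟨U, V, hU, hV, hAU, hBV, hd'⟩ := normal_separation hA hB hd
  obtain ⟨b, hb, hbA⟩ := not_subset.1 h1
  obtain ⟨a, ha, haB⟩ := not_subset.1 h2
  have hc' := hc.trans (union_subset_union hAU hBV)
  filter_upwards [h.robust1 hU hV hd' hc' ha (hAU ((hc ha).resolve_right haB)) (hlt a ha),
    h.robust1 hV hU hd'.symm (by rwa [union_comm]) hb (hBV ((hc hb).resolve_left hbA)) (hlt b hb)]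
    with q ⟨u, u1, u2, u3⟩ ⟨v, v1, v2, v3⟩
  exact ⟨u, v, fun e => disjoint_left.1 hd' u1 (e ▸ v1), u2, v2, u3, v3⟩

theorem Sup.round (h : Sup X) (hs : {p | 6 ≤ (crit X p).encard}.Subsingleton) :
    ∃ (c : E 3) (r : ℝ), ∀ u, ‖u‖ = 1 → X u = c + r • u := by
  by_contra hcon
  have disj : ∀ p, ∀ a ∈ arg X 1 p, a ∉ arg X (-1) p := by
    intro p a h1 h2
    refine hcon ⟨p, hp X p a, fun u hu => ?_⟩
    have e : hp X p u = hp X p a := by linarith [h1.2 u hu, h2.2 u hu]
    have := h.crit_eq one_ne_zero (arg_ext (σ := 1) (p := p) (u := u)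
      ⟨hu, fun v hv => by rw [e]; exact h1.2 v hv⟩)
    rw [← e, ← this]
    abel
  have D : Data (arg X 1) (arg X (-1)) := by
    obtain ⟨C, hC0, hC⟩ := h.bdd
    refine ⟨h.usc 1, h.usc (-1), disj, 4 * C + 1, fun w hw => ?_⟩
    have hw0 : w ≠ 0 := norm_pos_iff.1 (by linarith)
    have b : ∀ u, ‖u‖ = 1 → |⟪X u, u⟫| ≤ C := fun u hu =>
      (abs_real_inner_le_norm (X u) u).trans (by rw [hu, mul_one]; exact hC u hu)
    have e : ⟪w, ‖w‖⁻¹ • w⟫ = ‖w‖ := by
      rw [inner_smul_right, real_inner_self_eq_norm_sq]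
      field_simp
    refine ⟨fun a ha => ?_, fun a ha => ?_⟩ <;>
    · have k := ha.2 _ (polar hw0).1
      have k1 := abs_le.1 (b a ha.1)
      have k2 := abs_le.1 (b _ (polar hw0).1)
      have k' := ha.2 (-(‖w‖⁻¹ • w)) (by rw [norm_neg, (polar hw0).1])
      have k3 := abs_le.1 (b (-(‖w‖⁻¹ • w)) (by rw [norm_neg, (polar hw0).1]))
      simp only [hp, inner_sub_left, inner_neg_right, e] at k k' k3
      rw [real_inner_comm]
      linarith [k1.1, k1.2, k2.1, k2.2, k3.1, k3.2]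
  have hN : volume {p | 6 ≤ (crit X p).encard} = 0 := hs.measure_zero _
  have nRR : ∀ p c, RR X 1 p c → RR X (-1) p c → False := fun p c h1 h2 => by
    obtain ⟨z, k1, k2⟩ := h.six h1 h2 hN
    exact k1 k2
  have lev : ∀ p, ∃ c, ∀ σ : ℝ, σ = 1 ∨ σ = -1 →
      ∀ᶠ q in 𝓝 p, ∀ a ∈ arg X σ q, σ * hp X q a < σ * c := by
    intro p
    obtain ⟨a, ha⟩ := D.u1.ne p
    obtain ⟨b, hb⟩ := D.u2.ne p
    have k : hp X p a < hp X p b := by
      by_contra k
      exact disj p a ha ⟨ha.1, fun v hv => by linarith [hb.2 v hv]⟩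
    refine ⟨(hp X p a + hp X p b) / 2, ?_⟩
    rintro σ (rfl | rfl)
    · filter_upwards [(hp_cont' (X := X) 1 a).continuousAt.eventually_lt (x₀ := p)
        (continuousAt_const (y := 1 * ((hp X p a + hp X p b) / 2))) (by linarith)]
        with q hq u hu using (hu.2 a ha.1).trans_lt hq
    · filter_upwards [(hp_cont' (X := X) (-1) b).continuousAt.eventually_lt (x₀ := p)
        (continuousAt_const (y := -1 * ((hp X p a + hp X p b) / 2))) (by linarith)]
        with q hq u hu using (hu.2 b hb.1).trans_lt hq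
  obtain ⟨p0, hp0⟩ : ∃ p0, ∀ p ≠ p0, (crit X p).Finite := by
    rcases hs.eq_empty_or_singleton with k | ⟨p0, k⟩
    · refine ⟨0, fun p _ => finite_of_encard_le_coe (k := 6) (le_of_not_ge fun k' => ?_)⟩
      exact (k.subset k' :)
    · exact ⟨p0, fun p hp => finite_of_encard_le_coe (k := 6) (le_of_not_ge fun k' =>
        hp (k.subset k'))⟩
  have sub : ∀ σ : ℝ, σ ≠ 0 → ∀ p ≠ p0, IsPreconnected (arg X σ p) → (arg X σ p).Subsingleton := by
    intro σ hσ p hp' k
    by_contra k'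
    exact k.infinite_of_nontrivial (not_subsingleton_iff.1 k') ((hp0 p hp').subset fun u hu =>
      ⟨hu.1, _, h.crit_eq hσ (arg_ext hu)⟩)
  have one : ∀ p, IsPreconnected (arg X 1 p) ∨ IsPreconnected (arg X (-1) p) := by
    intro p
    by_contra k
    rw [not_or] at k
    obtain ⟨c, hc⟩ := lev p
    exact nRR p c (h.robust k.1 (hc 1 (Or.inl rfl)).self_of_nhds)
      (h.robust k.2 (hc (-1) (Or.inr rfl)).self_of_nhds)
  have hsub : ∀ p ≠ p0, (arg X 1 p).Subsingleton ∨ (arg X (-1) p).Subsingleton := fun p hp' =>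
    (one p).imp (sub 1 one_ne_zero p hp') (sub (-1) (by norm_num) p hp')
  obtain ⟨c, hc⟩ := lev p0
  by_cases c2 : IsPreconnected (arg X (-1) p0)
  · by_cases c1 : IsPreconnected (arg X 1 p0)
    · exact D.h1 p0 hsub c1 c2
    · refine D.h3 p0 hsub ?_
      filter_upwards [(h.robust c1 (hc 1 (Or.inl rfl)).self_of_nhds).eventually_nhds,
        hc (-1) (Or.inr rfl)] with q k1 k2 k3
      refine sub (-1) (by norm_num) q k3 ?_
      by_contra k4
      exact nRR q c k1 (h.robust k4 k2)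
  · refine D.h2 p0 hsub ?_
    filter_upwards [(h.robust c2 (hc (-1) (Or.inr rfl)).self_of_nhds).eventually_nhds,
      hc 1 (Or.inl rfl)] with q k1 k2 k3
    refine sub 1 one_ne_zero q k3 ?_
    by_contra k4
    exact nRR q c (h.robust k4 k2) k1

end Pool.Agent.Lib.MP_997161_gt
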