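import Pool.Agent.Lib.MP_997161_gt.Support

/-! Two local minima and two local maxima force six normals at regular values. -/

set_option autoImplicit false

open Set Filter Topology Function Metric MeasureTheory
open scoped RealInnerProductSpace

namespace Pool.Agent.Lib.MP_997161_gt

open Pool.Agent.Lib.MP_010b1d_an

variable {X : E 3 → E 3}

lemma polar {w : E 3} (hw : w ≠ 0) : ‖‖w‖⁻¹ • w‖ = 1 ∧ ‖w‖ • ‖w‖⁻¹ • w = w := by
  have h := norm_ne_zero_iff.2 hw
  exact ⟨by rw [norm_smul, norm_inv, norm_norm, inv_mul_cancel₀ h],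
    by rw [smul_smul, mul_inv_cancel₀ h, one_smul]⟩

lemma Sup.contOn (h : Sup X) : ContinuousOn X (sphere 0 1) := fun u hu =>
  (h.smooth u (ne_zero_of_mem_unit_sphere ⟨u, hu⟩)).continuousAt.continuousWithinAt

lemma Sup.bdd (h : Sup X) : ∃ C, 0 ≤ C ∧ ∀ u, ‖u‖ = 1 → ‖X u‖ ≤ C := by
  obtain ⟨C, hC⟩ := (isCompact_sphere (0 : E 3) 1).exists_bound_of_continuousOn h.contOn
  exact ⟨max C 0, le_max_right _ _, fun u hu => (hC u (by simpa using hu)).trans (le_max_left _ _)⟩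

lemma Sup.pre_le (h : Sup X) (z : E 3) :
    {w | w ≠ 0 ∧ NN X w = z}.encard ≤ (crit X z).encard := by
  have k : ∀ w, w ≠ 0 → NN X w = z → X (‖w‖⁻¹ • w) - z = -(‖w‖ - ‖w‖⁻¹) • ‖w‖⁻¹ • w := by
    intro w hw hz
    have := NN_smul h (polar hw).1 (norm_pos_iff.2 hw)
    rw [(polar hw).2, hz] at this
    linear_combination (norm := module) -this
  refine encard_le_encard_of_injOn (f := fun w => ‖w‖⁻¹ • w)
    (fun w hw => ⟨(polar hw.1).1, _, k w hw.1 hw.2⟩) fun w hw v hv e => ?_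
  simp only at e
  have k1 := k w hw.1 hw.2
  have k2 := k v hv.1 hv.2
  rw [← e, k1] at k2
  have k3 := smul_left_injective ℝ (norm_ne_zero_iff.1 (by rw [(polar hw.1).1]; exact one_ne_zero))
    k2
  have p1 := norm_pos_iff.2 hw.1
  have p2 := norm_pos_iff.2 hv.1
  have k4 : ‖w‖ = ‖v‖ := by
    have : (‖w‖ - ‖v‖) * (1 + ‖w‖⁻¹ * ‖v‖⁻¹) = 0 := by
      have e1 : ‖w‖ * ‖w‖⁻¹ = 1 := mul_inv_cancel₀ p1.ne'
      have e2 : ‖v‖ * ‖v‖⁻¹ = 1 := mul_inv_cancel₀ p2.ne'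
      linear_combination -k3 + ‖v‖⁻¹ * e1 - ‖w‖⁻¹ * e2
    exact sub_eq_zero.1 ((mul_eq_zero.1 this).resolve_right (by positivity))
  rw [← (polar hw.1).2, e, k4, (polar hv.1).2]

lemma Sup.far_le (h : Sup X) : ∃ L, ∀ z, L ≤ ‖z‖ → (crit X z).encard ≤ 2 := by
  obtain ⟨C, hC0, hC⟩ := h.bdd
  obtain ⟨K, hK⟩ := LocallyLipschitzOn.exists_lipschitzOnWith_of_compact (f := X)
    (isCompact_sphere (0 : E 3) 1) fun u hu => by
      obtain ⟨K, t, ht, h'⟩ := ((h.smooth u (ne_zero_of_mem_unit_sphere ⟨u, hu⟩)).of_le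
        one_le_two).exists_lipschitzOnWith
      exact ⟨K, t, mem_nhdsWithin_of_mem_nhds ht, h'⟩
  refine ⟨C + K + 1, fun z hz => ?_⟩
  have key : ∀ σ : ℝ, σ ^ 2 = 1 →
      {u | ‖u‖ = 1 ∧ ∃ t : ℝ, 0 ≤ σ * t ∧ X u - z = t • u}.Subsingleton := by
    rintro σ hσ u ⟨hu, t, ht, e⟩ v ⟨hv, s, hs, e'⟩
    have hσ' : |σ| = 1 := by rw [← sq_eq_sq₀ (abs_nonneg _) zero_le_one, sq_abs, hσ, one_pow]
    have b : ∀ (u : E 3) (t : ℝ), ‖u‖ = 1 → 0 ≤ σ * t → X u - z = t • u → K + 1 ≤ σ * t := by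
      intro u t hu ht e
      have k1 := norm_sub_norm_le z (X u)
      rw [norm_sub_rev, e, norm_smul, hu, mul_one] at k1
      have k2 : |t| = σ * t := by
        rw [← abs_of_nonneg ht, abs_mul, hσ', one_mul]
      rw [Real.norm_eq_abs, k2] at k1
      linarith [hC u hu]
    have b1 := b u t hu ht e
    have b2 := b v s hv hs e'
    have k1 := hK.dist_le_mul u (by simpa using hu) v (by simpa using hv)
    rw [dist_eq_norm, dist_eq_norm] at k1
    have k2 : X u - X v = t • u - s • v := by linear_combination (norm := module) e - e'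
    have k3 := abs_real_inner_le_norm (X u - X v) (u - v)
    have k4 : ‖u - v‖ ^ 2 = 2 - 2 * ⟪u, v⟫ := by rw [norm_sub_sq_real, hu, hv]; ring
    have k5 : ⟪X u - X v, u - v⟫ = (t + s) * (1 - ⟪u, v⟫) := by
      rw [k2]
      simp only [inner_sub_left, inner_sub_right, inner_smul_left, real_inner_self_eq_norm_sq, hu,
        hv, conj_trivial, real_inner_comm u v]
      ring
    have k6 : |σ * ⟪X u - X v, u - v⟫| ≤ K * ‖u - v‖ ^ 2 := by
      rw [abs_mul, hσ', one_mul]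
      nlinarith [norm_nonneg (u - v)]
    have k7 := (le_abs_self _).trans k6
    rw [k5] at k7
    have k8 : ‖u - v‖ ^ 2 ≤ 0 := by nlinarith [sq_nonneg ‖u - v‖]
    exact sub_eq_zero.1 (norm_eq_zero.1 (pow_eq_zero_iff two_ne_zero |>.1
      (le_antisymm k8 (sq_nonneg _))))
  refine (encard_le_encard (t := _ ∪ _) ?_).trans ((encard_union_le _ _).trans
    (add_le_add (encard_le_one_iff_subsingleton.2 (key 1 (by norm_num)))
      (encard_le_one_iff_subsingleton.2 (key (-1) (by norm_num)))))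
  rintro u ⟨hu, t, e⟩
  rcases le_total 0 t with ht | ht
  · exact Or.inl ⟨hu, t, by linarith, e⟩
  · exact Or.inr ⟨hu, t, by linarith, e⟩

/-- Two local minima of `σ * hp` below the level `σ * c`, for all nearby centres. -/
def RR (X : E 3 → E 3) (σ : ℝ) (p : E 3) (c : ℝ) : Prop :=
  ∀ᶠ q in 𝓝 p, ∃ u v, u ≠ v ∧ LExt X σ q u ∧ LExt X σ q v ∧ σ * hp X q u < σ * c ∧
    σ * hp X q v < σ * c

lemma sign_le_one (x : ℝ) : (SignType.sign x : ℝ) ≤ 1 := by
  rcases lt_trichotomy x 0 with h | h | h <;> simp [h]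

lemma neg_one_le_sign (x : ℝ) : -1 ≤ (SignType.sign x : ℝ) := by
  rcases lt_trichotomy x 0 with h | h | h <;> simp [h]

theorem Sup.six (h : Sup X) {p : E 3} {c : ℝ} (h1 : RR X 1 p c) (h2 : RR X (-1) p c)
    {N : Set (E 3)} (hN : volume N = 0) : ∃ z ∉ N, 6 ≤ (crit X z).encard := by
  classical
  obtain ⟨C, hC0, hC⟩ := h.bdd
  obtain ⟨L0, hL0⟩ := h.far_le
  set L := max (‖p‖ + 1) (|L0| + 2) with hL
  have hL1 : 0 < L := by linarith [le_max_left (‖p‖ + 1) (|L0| + 2), norm_nonneg p]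
  set T := L + C + 2 with hT
  have hT1 : 1 < T := by linarith
  have hT0 : 0 < T⁻¹ := by positivity
  let φ : ContDiffBump (0 : E 3) := ⟨T⁻¹ / 4, T⁻¹ / 2, by positivity, by linarith⟩
  let F : E 3 → E 3 := fun w => (1 - φ w) • NN X w
  have hF : ContDiff ℝ 2 F := contDiff_iff_contDiffAt.2 fun w => by
    by_cases hw : w = 0
    · subst hw
      refine (contDiffAt_const (c := (0 : E 3))).congr_of_eventuallyEq ?_
      filter_upwards [φ.eventuallyEq_one] with y hy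
      simp [F, hy]
    · exact (contDiffAt_const.sub φ.contDiffAt).smul (h.smoothN hw)
  have hFN : ∀ w, T⁻¹ / 2 < ‖w‖ → F w = NN X w := fun w hw => by
    simp [F, φ.zero_of_le_dist (x := w) (by simpa using hw.le)]
  have hV : IsOpen {w : E 3 | T⁻¹ / 2 < ‖w‖} := isOpen_lt continuous_const continuous_norm
  have hFN' : ∀ w, T⁻¹ / 2 < ‖w‖ → fderiv ℝ F w = fderiv ℝ (NN X) w := fun w hw =>
    EventuallyEq.fderiv_eq (by filter_upwards [hV.mem_nhds hw] with y hy using hFN y hy)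
  have hK : IsCompact {w : E 3 | T⁻¹ ≤ ‖w‖ ∧ ‖w‖ ≤ T} :=
    (isCompact_closedBall 0 T).of_isClosed_subset ((isClosed_le continuous_const
      continuous_norm).and (isClosed_le continuous_norm continuous_const))
      fun w hw => by simpa using hw.2
  have big : ∀ w ≠ 0, ¬(T⁻¹ ≤ ‖w‖ ∧ ‖w‖ ≤ T) → L + 1 ≤ ‖NN X w‖ := by
    intro w hw hw'
    have p1 := norm_pos_iff.2 hw
    have e := NN_smul h (polar hw).1 p1
    rw [(polar hw).2] at e
    have k1 := norm_sub_le (NN X w) (X (‖w‖⁻¹ • w))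
    rw [e, add_sub_cancel_left, norm_smul, (polar hw).1, mul_one, ← e, Real.norm_eq_abs] at k1
    have k2 := hC _ (polar hw).1
    have k3 : T - 1 ≤ |‖w‖ - ‖w‖⁻¹| := by
      rw [not_and_or, not_le, not_le] at hw'
      rcases hw' with k | k
      · have k4 := (lt_inv_comm₀ p1 (by linarith)).1 k
        have k5 := inv_lt_one_of_one_lt₀ hT1
        linarith [neg_abs_le (‖w‖ - ‖w‖⁻¹)]
      · have k5 := inv_lt_one_of_one_lt₀ (hT1.trans k)
        linarith [le_abs_self (‖w‖ - ‖w‖⁻¹)]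
    linarith
  have hpre : ∀ z ∈ ball (0 : E 3) L, ∀ w, (w ≠ 0 ∧ NN X w = z) ↔
      w ∈ {w : E 3 | T⁻¹ ≤ ‖w‖ ∧ ‖w‖ ≤ T} ∧ F w = z := by
    intro z hz w
    constructor
    · rintro ⟨k1, k2⟩
      have k3 : T⁻¹ ≤ ‖w‖ ∧ ‖w‖ ≤ T := by
        by_contra k
        have := big w k1 k
        rw [k2] at this
        linarith [mem_ball_zero_iff.1 hz]
      exact ⟨k3, by rw [hFN w (by linarith [k3.1]), k2]⟩
    · rintro ⟨k1, k2⟩
      exact ⟨norm_pos_iff.1 (hT0.trans_le k1.1), by rw [← hFN w (by linarith [k1.1]), k2]⟩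
  have hF1 : ContDiff ℝ 1 F := hF.of_le one_le_two
  obtain ⟨z, ⟨⟨hz1, hz2⟩, hzA⟩, hzN, hzr⟩ := exists_regular hF1 (inter_mem (h1.and h2)
    (isOpen_ball.mem_nhds (x := p) (s := ball (0 : E 3) L) (mem_ball_zero_iff.2
      (by linarith [le_max_left (‖p‖ + 1) (|L0| + 2)])))) N hN
  obtain ⟨y, hy⟩ := exists_norm_eq (E 3) (c := |L0| + 1) (by positivity)
  obtain ⟨z', hz', -, hz'r⟩ := exists_regular hF1 (ball_mem_nhds y one_pos) ∅ measure_empty
  rw [mem_ball_iff_norm] at hz'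
  have hz'A : z' ∈ ball (0 : E 3) L := mem_ball_zero_iff.2 (by
    linarith [norm_sub_norm_le z' y, le_max_right (‖p‖ + 1) (|L0| + 2)])
  have hz'2 := (h.pre_le z').trans (hL0 z' (by
    rw [norm_sub_rev] at hz'
    linarith [norm_sub_norm_le y z', le_abs_self L0]))
  refine ⟨z, hzN, ?_⟩
  by_contra hlt
  have hlt' := (h.pre_le z).trans_lt (not_le.1 hlt)
  have f1 := finite_of_encard_le_coe (k := 6) hlt'.le
  have f2 := finite_of_encard_le_coe (k := 2) hz'2
  have hdeg := deg_eq hF hV hK (fun w hw => by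
      simp only [mem_ofPred_eq] at hw ⊢; linarith [hw.1]) isOpen_ball
    (convex_ball 0 L).isPreconnected one_pos (fun w hw hw' x hx => by
      have hw0 : 0 < ‖w‖ := lt_trans (by positivity) hw
      rw [hFN w hw]
      linarith [norm_sub_norm_le (NN X w) x, big w (norm_pos_iff.1 hw0) hw',
        mem_ball_zero_iff.1 hx]) hzA hz'A f1.toFinset f2.toFinset
    (fun w => by rw [f1.mem_toFinset]; exact hpre z hzA w)
    (fun w => by rw [f2.mem_toFinset]; exact hpre z' hz'A w)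
    (fun w hw => hzr w ((hpre z hzA w).1 (f1.mem_toFinset.1 hw)).2)
    (fun w hw => hz'r w ((hpre z' hz'A w).1 (f2.mem_toFinset.1 hw)).2)
  have c2 : f2.toFinset.card ≤ 2 := by
    rw [f2.encard_eq_coe_toFinset_card] at hz'2
    exact_mod_cast hz'2
  have c1 : f1.toFinset.card < 6 := by
    rw [f1.encard_eq_coe_toFinset_card] at hlt'
    exact_mod_cast hlt'
  have d2 : ∑ x ∈ f2.toFinset, (SignType.sign (jac (fderiv ℝ F x)) : ℝ) ≤ 2 := by
    refine (Finset.sum_le_card_nsmul _ _ 1 fun x _ => sign_le_one _).trans ?_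
    simpa using (show (f2.toFinset.card : ℝ) ≤ 2 by exact_mod_cast c2)
  have lift : ∀ σ : ℝ, σ ≠ 0 → ∀ u, LExt X σ z u → ∃ w ∈ f1.toFinset, ‖w‖⁻¹ • w = u ∧
      (SignType.sign (jac (fderiv ℝ F w)) : ℝ) = 1 := by
    intro σ hσ u hu
    obtain ⟨r, hr, k1, k2⟩ := h.jacN hσ hu
    have hw : r • u ≠ 0 := smul_ne_zero hr.ne' (norm_ne_zero_iff.1 (by simp [hu.1]))
    have k3 := (hpre z hzA _).1 ⟨hw, k1⟩
    refine ⟨r • u, f1.mem_toFinset.2 ⟨hw, k1⟩, ?_, ?_⟩
    · rw [norm_smul, hu.1, mul_one, Real.norm_of_nonneg hr.le, smul_smul, inv_mul_cancel₀ hr.ne',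
        one_smul]
    · rw [← hFN' _ (by linarith [k3.1.1])] at k2
      rw [sign_pos (lt_of_le_of_ne k2 (hzr _ k3.2).symm)]
      simp
  obtain ⟨u1, u2, n12, l1, l2, v1, v2⟩ := hz1
  obtain ⟨u3, u4, n34, l3, l4, v3, v4⟩ := hz2
  obtain ⟨w1, m1, rfl, s1⟩ := lift 1 one_ne_zero u1 l1
  obtain ⟨w2, m2, rfl, s2⟩ := lift 1 one_ne_zero u2 l2
  obtain ⟨w3, m3, rfl, s3⟩ := lift (-1) (by norm_num) u3 l3
  obtain ⟨w4, m4, rfl, s4⟩ := lift (-1) (by norm_num) u4 l4
  have e12 : w1 ≠ w2 := fun e => n12 (by rw [e])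
  have e34 : w3 ≠ w4 := fun e => n34 (by rw [e])
  have e13 : w1 ≠ w3 := fun e => by rw [e] at v1; linarith
  have e14 : w1 ≠ w4 := fun e => by rw [e] at v1; linarith
  have e23 : w2 ≠ w3 := fun e => by rw [e] at v2; linarith
  have e24 : w2 ≠ w4 := fun e => by rw [e] at v2; linarith
  have sub : ({w1, w2, w3, w4} : Finset (E 3)) ⊆ f1.toFinset := by
    intro x hx
    simp only [Finset.mem_insert, Finset.mem_singleton] at hx
    rcases hx with rfl | rfl | rfl | rfl <;> assumption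
  have card4 : ({w1, w2, w3, w4} : Finset (E 3)).card = 4 := by
    simp [e12, e13, e14, e23, e24, e34]
  have sum4 : ∑ x ∈ ({w1, w2, w3, w4} : Finset (E 3)),
      (SignType.sign (jac (fderiv ℝ F x)) : ℝ) = 4 := by
    simp [e12, e13, e14, e23, e24, e34, s1, s2, s3, s4]
    norm_num
  rw [← Finset.sum_sdiff sub, sum4] at hdeg
  have d3 := Finset.card_nsmul_le_sum (f1.toFinset \ {w1, w2, w3, w4})
    (fun x => (SignType.sign (jac (fderiv ℝ F x)) : ℝ)) (-1) fun x _ => neg_one_le_sign _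
  have d4 : (f1.toFinset \ {w1, w2, w3, w4}).card ≤ 1 := by
    rw [Finset.card_sdiff_of_subset sub, card4]; omega
  have d5 : ((f1.toFinset \ {w1, w2, w3, w4}).card : ℝ) ≤ 1 := by exact_mod_cast d4
  simp only [nsmul_eq_mul, mul_neg, mul_one] at d3
  linarith

end Pool.Agent.Lib.MP_997161_gt
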