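import Pool.Agent.Lib.MP_997161_gt.Heil

/-! The inverse Gauss map and the normal map. -/

set_option autoImplicit false

open Set Filter Topology Function Metric
open scoped RealInnerProductSpace

namespace Pool.Agent.Lib.MP_997161_gt

open Pool.Agent.Lib.MP_010b1d_an

/-- The properties of the inverse Gauss map that are used. -/
structure Sup (X : E 3 → E 3) : Prop where
  smooth : ∀ w ≠ 0, ContDiffAt ℝ 2 X w
  mx : ∀ w ≠ 0, ∀ v ≠ 0, ⟪X v, w⟫ ≤ ⟪X w, w⟫
  homog : ∀ w, ∀ t : ℝ, 0 < t → X (t • w) = X w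

/-- Support function centred at `p`. -/
noncomputable def hp (X : E 3 → E 3) (p u : E 3) : ℝ := ⟪X u - p, u⟫

/-- Directions of the normals through `p`. -/
def crit (X : E 3 → E 3) (p : E 3) : Set (E 3) := {u | ‖u‖ = 1 ∧ ∃ t : ℝ, X u - p = t • u}

/-- Local minimum of `σ * hp`. -/
def LExt (X : E 3 → E 3) (σ : ℝ) (p u : E 3) : Prop :=
  ‖u‖ = 1 ∧ IsLocalMinOn (fun v => σ * hp X p v) (sphere 0 1) u

/-- The normal map. -/
noncomputable def NN (X : E 3 → E 3) (w : E 3) : E 3 := X w + (1 - (‖w‖ ^ 2)⁻¹) • w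

variable {X : E 3 → E 3}

lemma second_deriv {f g : ℝ → ℝ} {c : ℝ} (hf : ∀ s, HasDerivAt f (g s) s) (hg : HasDerivAt g c 0)
    (h : IsLocalMin f 0) : g 0 = 0 ∧ 0 ≤ c := by
  have e : deriv f = g := funext fun s => (hf s).deriv
  have h0 : g 0 = 0 := h.hasDerivAt_eq_zero (hf 0)
  refine ⟨h0, ?_⟩
  by_contra hc
  have h1 := isLocalMax_of_deriv_deriv_neg (f := f) (x₀ := 0)
    (by rw [e, hg.deriv]; exact not_le.1 hc) (by rw [e, h0]) (hf 0).continuousAt
  have h2 : f =ᶠ[𝓝 0] fun _ => f 0 := by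
    filter_upwards [h, h1] with s k1 k2 using le_antisymm k2 k1
  have h3 := h2.deriv.deriv_eq
  rw [e, hg.deriv] at h3
  simp at h3
  exact hc h3.ge

lemma Sup.diff (h : Sup X) {w : E 3} (hw : w ≠ 0) : HasFDerivAt X (fderiv ℝ X w) w :=
  ((h.smooth w hw).differentiableAt two_ne_zero).hasFDerivAt

lemma Sup.perp (h : Sup X) {w : E 3} (hw : w ≠ 0) (v : E 3) : ⟪fderiv ℝ X w v, w⟫ = 0 := by
  have h1 : IsLocalMax (fun v => ⟪w, X v⟫) w := by
    filter_upwards [isOpen_ne.mem_nhds hw] with y hy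
    simpa only [real_inner_comm] using h.mx w hw y hy
  have h2 := h1.hasFDerivAt_eq_zero ((innerSL ℝ w).hasFDerivAt.comp w (h.diff hw))
  have := congrArg (fun L : E 3 →L[ℝ] ℝ => L v) h2
  simpa [real_inner_comm] using this

lemma Sup.radial (h : Sup X) {w : E 3} (hw : w ≠ 0) : fderiv ℝ X w w = 0 := by
  have h1 : HasDerivAt (fun t : ℝ => X (t • w)) (fderiv ℝ X w w) 1 := by
    have := (h.diff (w := (1 : ℝ) • w) (by simpa using hw)).comp_hasDerivAt 1
      ((hasDerivAt_id (1 : ℝ)).smul_const w)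
    simpa [Function.comp_def] using this
  have h2 : (fun t : ℝ => X (t • w)) =ᶠ[𝓝 1] fun _ => X w := by
    filter_upwards [lt_mem_nhds zero_lt_one] with t ht using h.homog w t ht
  exact h1.unique ((hasDerivAt_const (1 : ℝ) (X w)).congr_of_eventuallyEq h2)

lemma Sup.circle (h : Sup X) {σ r : ℝ} {p u e : E 3} (hu : LExt X σ p u) (hr : 0 < r)
    (he : ‖e‖ = 1) (hue : ⟪u, e⟫ = 0) :
    σ * ⟪X u - p, e⟫ = 0 ∧ 0 ≤ σ * (r * ⟪fderiv ℝ X (r • u) e, e⟫ - hp X p u) := by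
  let γ : ℝ → E 3 := fun s => Real.cos s • u + Real.sin s • e
  let γ' : ℝ → E 3 := fun s => -Real.sin s • u + Real.cos s • e
  have hγ : ∀ s, HasDerivAt γ (γ' s) s := fun s =>
    ((Real.hasDerivAt_cos s).smul_const u).add ((Real.hasDerivAt_sin s).smul_const e)
  have hγ' : HasDerivAt γ' (-u) 0 := by
    refine (((Real.hasDerivAt_sin 0).neg.smul_const u).add
      ((Real.hasDerivAt_cos 0).smul_const e)).congr_deriv ?_
    simp
  have hn : ∀ s, ‖γ s‖ = 1 := by
    intro s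
    rw [← sq_eq_sq₀ (norm_nonneg _) zero_le_one, norm_add_sq_real]
    simp [norm_smul, hu.1, he, inner_smul_left, inner_smul_right, hue]
  have hne : ∀ s, r • γ s ≠ 0 := fun s => smul_ne_zero hr.ne' (norm_ne_zero_iff.1 (by simp [hn]))
  have hX : ∀ s, HasDerivAt (fun s => X (r • γ s) - p) (fderiv ℝ X (r • γ s) (r • γ' s)) s :=
    fun s => ((h.diff (hne s)).comp_hasDerivAt s ((hγ s).const_smul r)).sub_const p
  have h0 : γ 0 = u := by simp [γ]
  have h0' : γ' 0 = e := by simp [γ']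
  have := second_deriv (f := fun s => σ * ⟪X (r • γ s) - p, γ s⟫)
    (g := fun s => σ * ⟪X (r • γ s) - p, γ' s⟫)
    (c := σ * (r * ⟪fderiv ℝ X (r • u) e, e⟫ - hp X p u)) (fun s => ?_) ?_ ?_
  · simpa only [h0, h0', h.homog _ _ hr] using this
  · refine (((hX s).inner ℝ (hγ s)).congr_deriv ?_).const_mul σ
    have := h.perp (hne s) (r • γ' s)
    rw [inner_smul_right, mul_eq_zero] at this
    rw [this.resolve_left hr.ne', add_zero]
  · refine (((hX 0).inner ℝ hγ').congr_deriv ?_).const_mul σ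
    simp only [h0, h0', h.homog _ _ hr, hp, map_smul, inner_smul_left, inner_neg_right,
      conj_trivial]
    ring
  · have h1 : Tendsto γ (𝓝 0) (𝓝[sphere 0 1] u) := by
      refine tendsto_nhdsWithin_iff.2 ⟨h0 ▸ (hγ 0).continuousAt, Eventually.of_forall fun s => ?_⟩
      simpa using hn s
    filter_upwards [h1.eventually hu.2] with s hs
    simpa only [h0, h.homog _ _ hr, hp] using hs

lemma Sup.crit_eq (h : Sup X) {σ : ℝ} (hσ : σ ≠ 0) {p u : E 3} (hu : LExt X σ p u) :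
    X u - p = hp X p u • u := by
  obtain ⟨β, hβ⟩ := exists_basis1 hu.1
  have o := orthonormal_iff_ite.1 β.orthonormal
  have k : ∀ i ≠ 0, ⟪β i, X u - p⟫ = 0 := fun i hi => by
    have := (h.circle hu one_pos (β.orthonormal.1 i) (by rw [← hβ, o]; simp [hi.symm])).1
    rw [real_inner_comm]
    exact (mul_eq_zero.1 this).resolve_left hσ
  have := β.sum_repr' (X u - p)
  rw [Fin.sum_univ_three, k 1 (by decide), k 2 (by decide), hβ] at this
  rw [← this, hp, real_inner_comm]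
  simp

lemma jac_nonneg {A : E 3 →L[ℝ] E 3} {u : E 3} (hu : ‖u‖ = 1) {κ σ : ℝ} (hκ : 0 ≤ κ)
    (hσ : σ ≠ 0) (h0 : A u = κ • u) (hQ : ∀ e, ‖e‖ = 1 → ⟪u, e⟫ = 0 → 0 ≤ σ * ⟪A e, e⟫) :
    0 ≤ jac A := by
  obtain ⟨β, hβ⟩ := exists_basis1 hu
  have o := orthonormal_iff_ite.1 β.orthonormal
  have hQ' : ∀ e, ⟪u, e⟫ = 0 → 0 ≤ σ * ⟪A e, e⟫ := by
    intro e he
    by_cases h : e = 0
    · simp [h]
    have h1 : 0 < ‖e‖ := norm_pos_iff.2 h
    have := hQ (‖e‖⁻¹ • e) (by rw [norm_smul, norm_inv, norm_norm, inv_mul_cancel₀ h1.ne'])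
      (by rw [inner_smul_right, he, mul_zero])
    rw [map_smul, inner_smul_left, inner_smul_right, conj_trivial, mul_left_comm,
      mul_left_comm σ] at this
    exact (mul_nonneg_iff_of_pos_left (inv_pos.2 h1)).1
      ((mul_nonneg_iff_of_pos_left (inv_pos.2 h1)).1 this)
  have hd := discrim_le_zero (a := σ * ⟪β 1, A (β 1)⟫) (b := σ * (⟪β 1, A (β 2)⟫ + ⟪β 2, A (β 1)⟫))
    (c := σ * ⟪β 2, A (β 2)⟫) fun x => by
      have := hQ' (x • β 1 + β 2) (by simp [← hβ, inner_add_right, inner_smul_right, o])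
      simp only [map_add, map_smul, inner_add_left, inner_add_right, inner_smul_left,
        inner_smul_right, conj_trivial] at this
      rw [real_inner_comm (A (β 1)), real_inner_comm (A (β 1)), real_inner_comm (A (β 2)),
        real_inner_comm (A (β 2))]
      linarith
  have e : jac A = κ * (⟪β 1, A (β 1)⟫ * ⟪β 2, A (β 2)⟫ - ⟪β 1, A (β 2)⟫ * ⟪β 2, A (β 1)⟫) := by
    rw [jac, ← LinearMap.det_toMatrix β.toBasis, Matrix.det_fin_three]
    simp only [LinearMap.toMatrix_apply, OrthonormalBasis.coe_toBasis,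
      OrthonormalBasis.coe_toBasis_repr_apply, OrthonormalBasis.repr_apply_apply,
      ContinuousLinearMap.coe_coe]
    rw [← hβ] at h0
    simp only [h0, inner_smul_right, o]
    simp
    ring
  rw [e]
  refine mul_nonneg hκ ?_
  rw [discrim] at hd
  have h2 : 0 < σ ^ 2 := by positivity
  by_contra hc
  nlinarith [mul_pos h2 (neg_pos.2 (not_le.1 hc)),
    mul_nonneg h2.le (sq_nonneg (⟪β 1, A (β 2)⟫ - ⟪β 2, A (β 1)⟫))]

lemma Sup.smoothN (h : Sup X) {w : E 3} (hw : w ≠ 0) : ContDiffAt ℝ 2 (NN X) w :=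
  (h.smooth w hw).add ((contDiffAt_const.sub (((contDiff_norm_sq ℝ).contDiffAt).inv
    (pow_ne_zero 2 (norm_ne_zero_iff.2 hw)))).smul contDiffAt_id)

lemma Sup.fderivN (h : Sup X) {w : E 3} (hw : w ≠ 0) (v : E 3) :
    fderiv ℝ (NN X) w v = fderiv ℝ X w v + (1 - (‖w‖ ^ 2)⁻¹) • v +
      (2 * ⟪w, v⟫ / (‖w‖ ^ 2) ^ 2) • w := by
  have h1 := (hasDerivAt_inv (pow_ne_zero 2 (norm_ne_zero_iff.2 hw))).comp_hasFDerivAt w
    (hasStrictFDerivAt_norm_sq w).hasFDerivAt
  have h2 := (h.diff hw).add ((h1.const_sub 1).smul (hasFDerivAt_id w))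
  have h3 : HasFDerivAt (NN X) _ w := h2
  rw [h3.fderiv]
  simp [add_assoc, div_eq_mul_inv, mul_comm]

lemma NN_smul (h : Sup X) {u : E 3} (hu : ‖u‖ = 1) {r : ℝ} (hr : 0 < r) :
    NN X (r • u) = X u + (r - r⁻¹) • u := by
  rw [NN, h.homog _ _ hr, norm_smul, hu, mul_one, Real.norm_of_nonneg hr.le, smul_smul]
  congr 2
  field_simp

lemma Sup.jacN (h : Sup X) {σ : ℝ} (hσ : σ ≠ 0) {p u : E 3} (hu : LExt X σ p u) :
    ∃ r : ℝ, 0 < r ∧ NN X (r • u) = p ∧ 0 ≤ jac (fderiv ℝ (NN X) (r • u)) := by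
  set c := hp X p u with hc
  have h1 : ∃ r > 0, r - r⁻¹ = -c := by
    have k1 : 0 < c ^ 2 + 4 := by positivity
    have k2 := Real.sq_sqrt k1.le
    have k3 : |c| < √(c ^ 2 + 4) := Real.lt_sqrt_of_sq_lt (by rw [sq_abs]; linarith)
    have k4 : 0 < (-c + √(c ^ 2 + 4)) / 2 := by linarith [le_abs_self c]
    refine ⟨_, k4, ?_⟩
    rw [sub_eq_iff_eq_add, ← sub_eq_iff_eq_add', eq_comm]
    exact inv_eq_of_mul_eq_one_right (by linarith)
  obtain ⟨r, hr, hrc⟩ := h1
  have hw : r • u ≠ 0 := smul_ne_zero hr.ne' (norm_ne_zero_iff.1 (by simp [hu.1]))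
  have hn : ‖r • u‖ = r := by rw [norm_smul, hu.1, mul_one, Real.norm_of_nonneg hr.le]
  refine ⟨r, hr, ?_, jac_nonneg hu.1 (κ := 1 + (r ^ 2)⁻¹) (by positivity) hσ ?_ fun e he hue => ?_⟩
  · rw [NN_smul h hu.1 hr, hrc, ← sub_eq_zero]
    have := h.crit_eq hσ hu
    linear_combination (norm := module) this
  · have k := h.radial hw
    rw [map_smul, smul_eq_zero] at k
    rw [h.fderivN hw, k.resolve_left hr.ne', hn, inner_smul_left, real_inner_self_eq_norm_sq, hu.1,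
      zero_add, smul_smul, ← add_smul, conj_trivial]
    congr 1
    field_simp
    ring
  · have k := (h.circle hu hr he hue).2
    rw [h.fderivN hw, hn, inner_smul_left, hue]
    simp only [mul_zero, zero_div, zero_smul, add_zero, inner_add_left, inner_smul_left,
      real_inner_self_eq_norm_sq, he, conj_trivial]
    rw [← hc, show c = r⁻¹ - r by linarith] at k
    have e : σ * (⟪fderiv ℝ X (r • u) e, e⟫ + (1 - (r ^ 2)⁻¹) * 1 ^ 2) =
        r⁻¹ * (σ * (r * ⟪fderiv ℝ X (r • u) e, e⟫ - (r⁻¹ - r))) := by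
      field_simp
      ring
    rw [e]
    positivity

end Pool.Agent.Lib.MP_997161_gt
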